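import Pool.Agent.Lib.MP_d70044_ag.DH.Num

/-!
# DH.Block: blocks of nearly quadratic minimal degree
-/

namespace DH

open MvPolynomial

theorem block {k : ℕ} (hk : 4 ≤ k) : ∃ n p : ℕ, n ≤ k ∧ p ≤ k ∧
    (∃ F : MvPolynomial (Fin n × Fin n × Fin p) ℂ, F ≠ 0 ∧
      ∀ (a : Fin k → Fin n → ℂ) (b : Fin k → Fin n → ℂ) (c : Fin k → Fin p → ℂ),
        eval (tensC a b c) F = 0) ∧
    ∀ f : MvPolynomial (Fin n × Fin n × Fin p) ℂ, f ≠ 0 →
      (∀ (a : Fin k → Fin n → ℂ) (b : Fin k → Fin n → ℂ) (c : Fin k → Fin p → ℂ),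
        eval (tensC a b c) f = 0) →
      (k : ℝ) ^ 2 ≤ 128 * (1 + Real.log k) * f.totalDegree := by
  rcases Nat.lt_or_ge k 961 with h | h
  · have h1 : 3 * k < (Nat.sqrt (3 * k) + 1) * (Nat.sqrt (3 * k) + 1) := Nat.lt_succ_sqrt _
    have h2 : Nat.sqrt (3 * k) < k := by
      rw [Nat.sqrt_lt]
      nlinarith
    obtain ⟨n, hn⟩ : ∃ n, n = Nat.sqrt (3 * k) + 1 := ⟨_, rfl⟩
    rw [← hn] at h1
    have h3 : n ≤ k := by omega
    have h4 : k * (n + n + n) < n * n * n := by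
      have hn0 : 0 < n := by omega
      nlinarith
    refine ⟨n, n, h3, h3, exists_eq h4, fun f hf hv => ?_⟩
    have h5 := (cx_bound hf hv).2
    have h6 := small_log (by omega : 1 ≤ k) (by omega)
    have hkpos : (0 : ℝ) < k := by exact_mod_cast (by omega : 0 < k)
    have h7 : (k : ℝ) ≤ f.totalDegree := by exact_mod_cast (by omega : k ≤ f.totalDegree)
    nlinarith
  · obtain ⟨n, p, h1, h2, h3, h4⟩ := big h
    refine ⟨n, p, h1, h2, exists_eq h3, fun f hf hv => ?_⟩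
    by_contra hcon
    push Not at hcon
    obtain ⟨x, hx1, hx2, hx3⟩ := h4 _ hcon
    have h5 := (cx_bound hf hv).1 x hx1 hx2
    linarith

end DH
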