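import Pool.Agent.Lib.MP_d70044_ag.DH.Step

/-!
# DH.Bound: the degree bound for real homogeneous polynomials
-/

namespace DH

open MvPolynomial Finset

variable {m1 m2 m3 : ℕ}

/-- no nonzero constant vanishes -/
theorem ex_zero {k : ℕ} (h : Ex m1 m2 m3 k 0) : False := by
  classical
  obtain ⟨f, hf, he, hv⟩ := h
  have h1 := sum_pd_sq id he
  rw [zero_mul] at h1
  have h2 : ∀ p, pderiv p f = 0 := by
    intro p
    by_contra h3
    have h4 := ip_self_pos h3
    have h5 : ip (pderiv p f) (pderiv p f) ≤ ∑ i, ip (pderiv (id i) f) (pderiv (id i) f) :=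
      Finset.single_le_sum (f := fun i => ip (pderiv (id i) f) (pderiv (id i) f))
        (fun i _ => ip_self_nonneg _) (Finset.mem_univ p)
    linarith
  have h3 : f = C (coeff 0 f) := by
    ext m
    rw [coeff_C]
    by_cases hm : m = 0
    · rw [if_pos hm.symm, hm]
    · rw [if_neg (fun h => hm h.symm)]
      obtain ⟨p, hp⟩ := Finsupp.ne_iff.1 hm
      rw [Finsupp.zero_apply] at hp
      have h4 := congrArg (coeff (m - Finsupp.single p 1)) (h2 p)
      have h6 : m - Finsupp.single p 1 + Finsupp.single p 1 = m := by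
        ext q
        by_cases hq : q = p
        · subst hq
          simp only [Finsupp.add_apply, Finsupp.tsub_apply, Finsupp.single_eq_same]
          omega
        · simp [Finsupp.single_apply, Ne.symm hq]
      rw [coeff_pderiv, coeff_zero, h6] at h4
      rcases mul_eq_zero.1 h4 with h5 | h5
      · exact h5
      · exfalso
        have : (0 : ℝ) ≤ ((m - Finsupp.single p 1 : _ →₀ ℕ) p : ℝ) := Nat.cast_nonneg _
        linarith
  have h4 := hv 0 0 0
  rw [h3, eval_C] at h4
  rw [h4, map_zero] at h3
  exact hf h3

theorem ex_pos {k : ℕ} : ∀ e : ℕ, Ex m1 m2 m3 k e → k + 1 ≤ e := by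
  induction k with
  | zero =>
    intro e he
    rcases Nat.eq_zero_or_pos e with h | h
    · subst h
      rw [Nat.cast_zero] at he
      exact (ex_zero he).elim
    · omega
  | succ k ih =>
    intro e he
    rcases Nat.eq_zero_or_pos e with h | h
    · subst h
      rw [Nat.cast_zero] at he
      exact (ex_zero he).elim
    · have h1 := rec_step he 0 (by
        intro m hm
        obtain rfl : m = 0 := by omega
        have : (0 : ℝ) < e := by exact_mod_cast h
        simpa using h)
      have h2 : ((e : ℝ) - ((0 : ℕ) + 1)) = ((e - 1 : ℕ) : ℝ) := by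
        rw [Nat.cast_sub h]
        push_cast
        ring
      rw [h2] at h1
      have := ih _ h1
      omega

/-- the real solution of the quadratic equation -/
theorem exists_root {A B e : ℝ} (hA : 0 ≤ A) (hB : 0 < B) (he : 0 ≤ e) :
    ∃ y : ℝ, 0 ≤ y ∧ B * y ^ 2 + A * y = e := by
  set s := Real.sqrt (A ^ 2 + 4 * B * e) with hs
  have h0 : 0 ≤ A ^ 2 + 4 * B * e := by positivity
  have hs2 : s ^ 2 = A ^ 2 + 4 * B * e := Real.sq_sqrt h0
  have hsA : A ≤ s := by
    rw [hs]
    apply Real.le_sqrt_of_sq_le
    nlinarith [mul_nonneg hB.le he]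
  refine ⟨(s - A) / (2 * B), by apply div_nonneg <;> linarith, ?_⟩
  field_simp
  nlinarith

/-- the growth function -/
noncomputable def hh (A B x : ℝ) : ℝ := 2 * B * x + A * (1 + Real.log x)

theorem hh_step {A B y x : ℝ} (hA : 0 ≤ A) (hB : 0 ≤ B) (hy : 1 ≤ y) (hyx : y ≤ x)
    (h : x ≤ (B * x ^ 2 + A * x) - (B * y ^ 2 + A * y)) : hh A B y + 1 ≤ hh A B x := by
  have hx0 : 0 < x := by linarith
  have hy0 : 0 < y := by linarith
  unfold hh
  have h1 : 1 - y / x ≤ Real.log x - Real.log y := by
    have h2 := Real.log_le_sub_one_of_pos (show 0 < y / x by positivity)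
    rw [Real.log_div hy0.ne' hx0.ne'] at h2
    linarith
  have h3 : A * (1 - y / x) ≤ A * (Real.log x - Real.log y) := mul_le_mul_of_nonneg_left h1 hA
  have h4 : 1 ≤ 2 * B * (x - y) + A * (1 - y / x) := by
    have h5 : x * 1 ≤ x * (2 * B * (x - y) + A * (1 - y / x)) := by
      have h6 : x * (2 * B * (x - y) + A * (1 - y / x)) = 2 * B * (x - y) * x + A * (x - y) := by
        field_simp
      rw [h6]
      have h7 : 0 ≤ B * (x - y) * (x - y) := by
        have : 0 ≤ x - y := by linarith
        positivity
      nlinarith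
    exact le_of_mul_le_mul_left h5 hx0
  linarith

theorem hh_mono {A B y x : ℝ} (hA : 0 ≤ A) (hB : 0 ≤ B) (hy : 1 ≤ y) (hyx : y ≤ x) :
    hh A B y ≤ hh A B x := by
  unfold hh
  have h1 : Real.log y ≤ Real.log x := Real.log_le_log (by linarith) hyx
  have h2 := mul_le_mul_of_nonneg_left h1 hA
  have h3 := mul_le_mul_of_nonneg_left hyx hB
  linarith

/-- the degree bound -/
theorem ex_bound (h3 : 1 ≤ m3) {k : ℕ} : ∀ (e : ℕ), Ex m1 m2 m3 k e → ∀ x : ℝ, 1 ≤ x →
    (e : ℝ) ≤ m3 * x ^ 2 + (m1 + m2 + 1) * x → (k : ℝ) ≤ hh (m1 + m2 + 1) m3 x := by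
  set A : ℝ := (m1 : ℝ) + m2 + 1 with hA
  set B : ℝ := (m3 : ℝ) with hB
  have hA0 : 1 ≤ A := by
    have e1 : (0 : ℝ) ≤ m1 := Nat.cast_nonneg _
    have e2 : (0 : ℝ) ≤ m2 := Nat.cast_nonneg _
    linarith
  have hB1 : 1 ≤ B := by rw [hB]; exact_mod_cast h3
  have hbase : ∀ x : ℝ, 1 ≤ x → A + B ≤ hh A B x := by
    intro x hx
    refine le_trans ?_ (hh_mono (by linarith) (by linarith) le_rfl hx)
    unfold hh
    rw [Real.log_one]
    linarith
  induction k with
  | zero =>
    intro e _ x hx _
    have := hbase x hx
    rw [Nat.cast_zero]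
    linarith
  | succ k ih =>
    intro e he x hx hex
    have hpos := ex_pos e he
    have he0 : (0 : ℝ) ≤ e := Nat.cast_nonneg _
    rcases le_or_gt (e : ℝ) (A + B) with h1 | h1
    · have h2 : ((k + 1 : ℕ) : ℝ) + 1 ≤ e := by exact_mod_cast hpos
      have := hbase x hx
      linarith
    · obtain ⟨z, hz0, hz⟩ := exists_root (show 0 ≤ A by linarith) (show 0 < B by linarith) he0
      have hz1 : 1 < z := by
        by_contra hcon
        push Not at hcon
        have e1 : B * z ^ 2 ≤ B * 1 := by
          apply mul_le_mul_of_nonneg_left _ (by linarith)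
          nlinarith
        have e2 : A * z ≤ A * 1 := mul_le_mul_of_nonneg_left hcon (by linarith)
        linarith
      have hzx : z ≤ x := by
        by_contra hcon
        push Not at hcon
        have e1 : B * x ^ 2 < B * z ^ 2 := by
          apply mul_lt_mul_of_pos_left _ (by linarith)
          nlinarith
        have e2 : A * x < A * z := mul_lt_mul_of_pos_left hcon (by linarith)
        linarith
      refine le_trans ?_ (hh_mono (by linarith) (by linarith) hz1.le hzx)
      -- `D + 1 = ⌈z⌉`
      set D := ⌈z⌉₊ - 1 with hD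
      have hceil : 1 ≤ ⌈z⌉₊ := Nat.one_le_ceil_iff.2 (by linarith)
      have hD1 : (D : ℝ) + 1 = ⌈z⌉₊ := by
        rw [hD, Nat.cast_sub hceil]
        push_cast
        ring
      have hDz : (D : ℝ) < z := by
        have := Nat.ceil_lt_add_one (show 0 ≤ z by linarith)
        linarith
      have hzD : z ≤ (D : ℝ) + 1 := by
        rw [hD1]
        exact Nat.le_ceil z
      have hD0 : (0 : ℝ) ≤ D := Nat.cast_nonneg _
      have hTD : B * (D : ℝ) ^ 2 + A * D < e := by
        rw [← hz]
        have e1 : B * (D : ℝ) ^ 2 ≤ B * z ^ 2 := by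
          apply mul_le_mul_of_nonneg_left _ (by linarith)
          nlinarith
        have e2 : A * (D : ℝ) < A * z := mul_lt_mul_of_pos_left hDz (by linarith)
        linarith
      have hres := rec_step he D (by
        intro m hm
        have hm' : (m : ℝ) ≤ D := by exact_mod_cast hm
        have hm0 : (0 : ℝ) ≤ m := Nat.cast_nonneg _
        have e1 : B * (m : ℝ) ^ 2 ≤ B * (D : ℝ) ^ 2 := by
          apply mul_le_mul_of_nonneg_left _ (by linarith)
          nlinarith
        have e2 : A * (m : ℝ) ≤ A * D := mul_le_mul_of_nonneg_left hm' (by linarith)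
        have e3 : A * (m : ℝ) = ((m1 : ℝ) + m2) * m + m := by rw [hA]; ring
        linarith)
      have heD : D + 1 ≤ e := by
        have e1 : (D : ℝ) < e := by
          have e2 : (D : ℝ) ≤ A * D := by nlinarith
          have e3 : 0 ≤ B * (D : ℝ) ^ 2 := by positivity
          linarith
        have : D < e := by exact_mod_cast e1
        omega
      have h2 : ((e : ℝ) - (D + 1)) = ((e - (D + 1) : ℕ) : ℝ) := by
        rw [Nat.cast_sub heD]
        push_cast
        ring
      rw [h2] at hres
      have hpos' := ex_pos _ hres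
      set e' := e - (D + 1) with he'
      rcases le_or_gt ((e' : ℕ) : ℝ) (A + B) with h4 | h4
      · have h5 : ((k + 1 : ℕ) : ℝ) ≤ e' := by exact_mod_cast hpos'
        have := hbase z hz1.le
        linarith
      · obtain ⟨y, hy0, hy⟩ := exists_root (show 0 ≤ A by linarith) (show 0 < B by linarith)
          (Nat.cast_nonneg e')
        have hy1 : 1 < y := by
          by_contra hcon
          push Not at hcon
          have e1 : B * y ^ 2 ≤ B * 1 := by
            apply mul_le_mul_of_nonneg_left _ (by linarith)
            nlinarith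
          have e2 : A * y ≤ A * 1 := mul_le_mul_of_nonneg_left hcon (by linarith)
          linarith
        have hyz : y ≤ z := by
          by_contra hcon
          push Not at hcon
          have e1 : B * z ^ 2 < B * y ^ 2 := by
            apply mul_lt_mul_of_pos_left _ (by linarith)
            nlinarith
          have e2 : A * z < A * y := mul_lt_mul_of_pos_left hcon (by linarith)
          have e3 : ((e' : ℕ) : ℝ) ≤ e := by
            rw [← h2]
            linarith
          linarith
        have h6 := ih e' hres y hy1.le (by rw [hy])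
        have h7 : z ≤ (B * z ^ 2 + A * z) - (B * y ^ 2 + A * y) := by
          rw [hz, hy, ← h2]
          linarith
        have h8 := hh_step (show 0 ≤ A by linarith) (show 0 ≤ B by linarith) hy1.le hyz h7
        push_cast
        linarith

end DH
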