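import Pool.Agent.Lib.MP_d70044_ag.DH.Bound

/-!
# DH.Cx: complex polynomials, not necessarily homogeneous
-/

namespace DH

open MvPolynomial Finset

variable {m1 m2 m3 : ℕ}

/-- the real part of a complex polynomial -/
noncomputable def reP {σ : Type*} (f : MvPolynomial σ ℂ) : MvPolynomial σ ℝ :=
  ∑ m ∈ f.support, monomial m (coeff m f).re

theorem coeff_reP {σ : Type*} (f : MvPolynomial σ ℂ) (m : σ →₀ ℕ) :
    coeff m (reP f) = (coeff m f).re := by
  classical
  unfold reP
  rw [coeff_sum]
  simp only [coeff_monomial]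
  rw [Finset.sum_ite_eq']
  split_ifs with h
  · rfl
  · rw [notMem_support_iff] at h
    rw [h, Complex.zero_re]

theorem eval_reP {σ : Type*} (f : MvPolynomial σ ℂ) (x : σ → ℝ) :
    eval x (reP f) = (eval (fun v => (x v : ℂ)) f).re := by
  classical
  unfold reP
  rw [map_sum, eval_eq, Complex.re_sum]
  refine Finset.sum_congr rfl fun m _ => ?_
  rw [eval_monomial]
  have h1 : (∏ i ∈ m.support, (x i : ℂ) ^ m i) = ((∏ i ∈ m.support, x i ^ m i : ℝ) : ℂ) := by
    push_cast
    rfl
  rw [h1, Complex.re_mul_ofReal]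
  rfl

theorem support_reP {σ : Type*} (f : MvPolynomial σ ℂ) : (reP f).support ⊆ f.support := by
  intro m hm
  rw [mem_support_iff, coeff_reP] at hm
  rw [mem_support_iff]
  intro h
  rw [h] at hm
  exact hm Complex.zero_re

/-- real homogeneous components of a real polynomial vanishing on a cone -/
theorem van_comp {k : ℕ} {f : Q m1 m2 m3} (hv : Van k f) (e : ℕ) :
    Van k (homogeneousComponent e f) := by
  classical
  intro α β γ
  have hhom : ∀ (e : ℕ) (t : ℝ) (y : Fin m1 × Fin m2 × Fin m3 → ℝ),
      eval (fun p => t * y p) (homogeneousComponent e f) =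
        t ^ e * eval y (homogeneousComponent e f) := by
    intro e t y
    have h1 := homogeneousComponent_isHomogeneous e f
    rw [eval_eq, eval_eq, Finset.mul_sum]
    refine Finset.sum_congr rfl fun m hm => ?_
    have h2 : ∑ i ∈ m.support, m i = e := by
      have := h1 (mem_support_iff.1 hm)
      rw [Finsupp.weight_apply] at this
      simpa [Finsupp.sum] using this
    rw [← h2, ← Finset.prod_pow_eq_pow_sum]
    simp only [mul_pow, Finset.prod_mul_distrib]
    ring
  set y := tens α β γ with hy
  have hcone : ∀ t : ℝ, eval (fun p => t * y p) f = 0 := by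
    intro t
    rw [← hv (fun r i => t * α r i) β γ]
    congr 1
    congr 1
    funext p
    rw [hy]
    unfold tens
    rw [Finset.mul_sum]
    refine Finset.sum_congr rfl fun r _ => ?_
    ring
  set Pt : Polynomial ℝ := ∑ i ∈ Finset.range (f.totalDegree + 1),
    Polynomial.C (eval y (homogeneousComponent i f)) * Polynomial.X ^ i with hPt
  have hPt0 : Pt = 0 := by
    apply Polynomial.funext
    intro t
    rw [Polynomial.eval_zero, ← hcone t]
    conv_rhs => rw [← sum_homogeneousComponent f]
    rw [hPt, Polynomial.eval_finsetSum, map_sum]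
    refine Finset.sum_congr rfl fun i _ => ?_
    rw [hhom]
    simp
    ring
  by_cases he : e < f.totalDegree + 1
  · have h1 := congrArg (fun p => Polynomial.coeff p e) hPt0
    simp only [hPt, Polynomial.finsetSum_coeff, Polynomial.coeff_C_mul, Polynomial.coeff_X_pow,
      Polynomial.coeff_zero] at h1
    rw [Finset.sum_eq_single e] at h1
    · simpa using h1
    · intro i _ hi
      rw [if_neg (fun h => hi h.symm), mul_zero]
    · intro h
      exact absurd (Finset.mem_range.2 he) h
  · rw [homogeneousComponent_eq_zero _ _ (by omega), map_zero]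

/-- the bound for real polynomials -/
theorem real_bound (h3 : 1 ≤ m3) {k : ℕ} {f : Q m1 m2 m3} (hf : f ≠ 0) (hv : Van k f) :
    (∀ x : ℝ, 1 ≤ x → (f.totalDegree : ℝ) ≤ m3 * x ^ 2 + (m1 + m2 + 1) * x →
      (k : ℝ) ≤ hh (m1 + m2 + 1) m3 x) ∧ k + 1 ≤ f.totalDegree := by
  classical
  obtain ⟨e, he⟩ : ∃ e, homogeneousComponent e f ≠ 0 := by
    by_contra hcon
    push Not at hcon
    apply hf
    rw [← sum_homogeneousComponent f]
    exact Finset.sum_eq_zero fun i _ => hcon i
  have hle : e ≤ f.totalDegree := by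
    by_contra h
    exact he (homogeneousComponent_eq_zero _ _ (by omega))
  have hE : Ex m1 m2 m3 k e := by
    refine ⟨_, he, ?_, van_comp hv e⟩
    have h1 := (homogeneousComponent_isHomogeneous e f).sum_X_mul_pderiv
    unfold eul
    rw [← Nat.cast_smul_eq_nsmul ℝ] at h1
    simpa using h1
  have h2 := ex_pos e hE
  refine ⟨fun x hx hex => ex_bound h3 e hE x hx ?_, by omega⟩
  have : (e : ℝ) ≤ f.totalDegree := by exact_mod_cast hle
  linarith

/-- the complex tensor -/
def tensC {k : ℕ} (a : Fin k → Fin m1 → ℂ) (b : Fin k → Fin m2 → ℂ) (c : Fin k → Fin m3 → ℂ) :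
    Fin m1 × Fin m2 × Fin m3 → ℂ := fun p => ∑ i, a i p.1 * b i p.2.1 * c i p.2.2

theorem cx_bound {k : ℕ} {f : MvPolynomial (Fin m1 × Fin m2 × Fin m3) ℂ} (hf : f ≠ 0)
    (hv : ∀ (a : Fin k → Fin m1 → ℂ) (b : Fin k → Fin m2 → ℂ) (c : Fin k → Fin m3 → ℂ),
      eval (tensC a b c) f = 0) :
    (∀ x : ℝ, 1 ≤ x → (f.totalDegree : ℝ) ≤ m3 * x ^ 2 + (m1 + m2 + 1) * x →
      (k : ℝ) ≤ hh (m1 + m2 + 1) m3 x) ∧ k + 1 ≤ f.totalDegree := by
  classical
  by_cases hpos : 1 ≤ m1 ∧ 1 ≤ m2 ∧ 1 ≤ m3
  · have hkey : ∀ g : MvPolynomial (Fin m1 × Fin m2 × Fin m3) ℂ,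
        (∀ (a : Fin k → Fin m1 → ℂ) (b : Fin k → Fin m2 → ℂ) (c : Fin k → Fin m3 → ℂ),
          eval (tensC a b c) g = 0) → reP g ≠ 0 →
        (∀ x : ℝ, 1 ≤ x → (g.totalDegree : ℝ) ≤ m3 * x ^ 2 + (m1 + m2 + 1) * x →
          (k : ℝ) ≤ hh (m1 + m2 + 1) m3 x) ∧ k + 1 ≤ g.totalDegree := by
      intro g hg hg0
      have h1 : Van k (reP g) := by
        intro α β γ
        rw [eval_reP]
        have h2 := hg (fun r i => α r i) (fun r i => β r i) (fun r i => γ r i)
        have h3 : (fun v => ((tens α β γ v : ℝ) : ℂ)) =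
            tensC (fun r i => (α r i : ℂ)) (fun r i => (β r i : ℂ)) (fun r i => (γ r i : ℂ)) := by
          funext p
          unfold tens tensC
          push_cast
          rfl
        rw [h3, h2, Complex.zero_re]
      have h2 := real_bound hpos.2.2 hg0 h1
      have h3 : (reP g).totalDegree ≤ g.totalDegree :=
        Finset.sup_mono (support_reP g)
      refine ⟨fun x hx hex => h2.1 x hx ?_, h2.2.trans h3⟩
      have : ((reP g).totalDegree : ℝ) ≤ g.totalDegree := by exact_mod_cast h3
      linarith
    by_cases h1 : reP f = 0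
    · have h2 : reP (C (-Complex.I) * f) ≠ 0 := by
        intro h2
        apply hf
        ext m
        have e1 := congrArg (coeff m) h1
        have e2 := congrArg (coeff m) h2
        rw [coeff_reP, coeff_zero] at e1 e2
        rw [coeff_C_mul] at e2
        rw [coeff_zero]
        apply Complex.ext
        · rw [e1, Complex.zero_re]
        · rw [Complex.zero_im]
          simpa using e2
      have h3 := hkey _ (fun a b c => by rw [map_mul, hv, mul_zero]) h2
      have h4 : (C (-Complex.I) * f).totalDegree ≤ f.totalDegree := by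
        refine totalDegree_le_of_support_subset fun m hm => ?_
        rw [mem_support_iff, coeff_C_mul] at hm
        rw [mem_support_iff]
        intro h
        exact hm (by rw [h, mul_zero])
      refine ⟨fun x hx hex => h3.1 x hx ?_, h3.2.trans h4⟩
      have : ((C (-Complex.I) * f).totalDegree : ℝ) ≤ f.totalDegree := by exact_mod_cast h4
      linarith
    · exact hkey f hv h1
  · exfalso
    have hE : IsEmpty (Fin m1 × Fin m2 × Fin m3) := by
      rw [isEmpty_prod, isEmpty_prod]
      by_cases h1 : m1 = 0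
      · left; subst h1; infer_instance
      · right
        by_cases h2 : m2 = 0
        · left; subst h2; infer_instance
        · right
          have : m3 = 0 := by omega
          subst this; infer_instance
    have h1 := eq_C_of_isEmpty f
    have h2 := hv 0 0 0
    rw [h1, eval_C] at h2
    rw [h2, map_zero] at h1
    exact hf h1

end DH
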