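import Pool.Agent.Lib.MP_d70044_ag.DH.Cx

/-!
# DH.Gen: existence of equations by a dimension count, and sub-formats
-/

namespace DH

open MvPolynomial Finset

variable {m1 m2 m3 : ℕ}

/-- the generic tensor of rank at most `k` -/
noncomputable def gen (m1 m2 m3 k : ℕ) : MvPolynomial (Fin m1 × Fin m2 × Fin m3) ℂ →ₐ[ℂ]
    MvPolynomial (Fin k × (Fin m1 ⊕ Fin m2 ⊕ Fin m3)) ℂ :=
  aeval fun p => ∑ r, X (r, Sum.inl p.1) * X (r, Sum.inr (Sum.inl p.2.1)) *
    X (r, Sum.inr (Sum.inr p.2.2))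

theorem eval_gen {k : ℕ} (a : Fin k → Fin m1 → ℂ) (b : Fin k → Fin m2 → ℂ)
    (c : Fin k → Fin m3 → ℂ) (f : MvPolynomial (Fin m1 × Fin m2 × Fin m3) ℂ) :
    eval (fun v => Sum.elim (a v.1) (Sum.elim (b v.1) (c v.1)) v.2) (gen m1 m2 m3 k f) =
      eval (tensC a b c) f := by
  unfold gen
  induction f using MvPolynomial.induction_on with
  | C r =>
    rw [aeval_C, eval_C]
    change eval _ (C r) = r
    rw [eval_C]
  | add p q hp hq => rw [map_add, map_add, map_add, hp, hq]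
  | mul_X p v hp =>
    rw [map_mul, map_mul, map_mul, hp, aeval_X, eval_X, map_sum]
    congr 1
    unfold tensC
    refine Finset.sum_congr rfl fun r _ => ?_
    simp

theorem exists_eq {k : ℕ} (h : k * (m1 + m2 + m3) < m1 * m2 * m3) :
    ∃ F : MvPolynomial (Fin m1 × Fin m2 × Fin m3) ℂ, F ≠ 0 ∧
      ∀ (a : Fin k → Fin m1 → ℂ) (b : Fin k → Fin m2 → ℂ) (c : Fin k → Fin m3 → ℂ),
      eval (tensC a b c) F = 0 := by
  have hni : ¬ Function.Injective (gen m1 m2 m3 k) := by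
    intro hinj
    have h1 := trdeg_le_of_injective (gen m1 m2 m3 k) hinj
    rw [MvPolynomial.trdeg_of_isDomain, MvPolynomial.trdeg_of_isDomain] at h1
    simp only [Cardinal.lift_id, Cardinal.mk_fintype, Nat.cast_le, Fintype.card_prod,
      Fintype.card_fin, Fintype.card_sum] at h1
    rw [← mul_assoc, ← add_assoc] at h1
    omega
  rw [injective_iff_map_eq_zero] at hni
  push Not at hni
  obtain ⟨F, hF, hF0⟩ := hni
  refine ⟨F, hF0, fun a b c => ?_⟩
  rw [← eval_gen, hF, map_zero]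

/-- extension of a tensor by zero -/
def ext0 {k : ℕ} (T : Fin m1 × Fin m2 × Fin m3 → ℂ) : Fin k × Fin k × Fin k → ℂ :=
  fun p => if h : p.1.1 < m1 ∧ p.2.1.1 < m2 ∧ p.2.2.1 < m3 then
    T (⟨p.1.1, h.1⟩, ⟨p.2.1.1, h.2.1⟩, ⟨p.2.2.1, h.2.2⟩) else 0

/-- restriction of a polynomial to the tensors of the smaller format -/
noncomputable def res (m1 m2 m3 : ℕ) {k : ℕ} (g : MvPolynomial (Fin k × Fin k × Fin k) ℂ) :
    MvPolynomial (Fin m1 × Fin m2 × Fin m3) ℂ :=
  aeval (fun p : Fin k × Fin k × Fin k => if h : p.1.1 < m1 ∧ p.2.1.1 < m2 ∧ p.2.2.1 < m3 then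
    (X (⟨p.1.1, h.1⟩, ⟨p.2.1.1, h.2.1⟩, ⟨p.2.2.1, h.2.2⟩) :
      MvPolynomial (Fin m1 × Fin m2 × Fin m3) ℂ) else 0) g

theorem eval_res {k : ℕ} (g : MvPolynomial (Fin k × Fin k × Fin k) ℂ)
    (T : Fin m1 × Fin m2 × Fin m3 → ℂ) : eval T (res m1 m2 m3 g) = eval (ext0 T) g := by
  unfold res
  induction g using MvPolynomial.induction_on with
  | C r =>
    rw [aeval_C, eval_C]
    change eval _ (C r) = r
    rw [eval_C]
  | add p q hp hq => rw [map_add, map_add, map_add, hp, hq]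
  | mul_X p v hp =>
    rw [map_mul, map_mul, map_mul, hp, aeval_X, eval_X]
    congr 1
    unfold ext0
    split_ifs with h
    · rw [eval_X]
    · rw [map_zero]

theorem deg_res {k : ℕ} (g : MvPolynomial (Fin k × Fin k × Fin k) ℂ) :
    (res m1 m2 m3 g).totalDegree ≤ g.totalDegree := by
  classical
  unfold res
  rw [aeval_eq_eval₂Hom, coe_eval₂Hom, eval₂_eq]
  refine (totalDegree_finsetSum _ _).trans (Finset.sup_le fun m hm => ?_)
  refine (totalDegree_mul _ _).trans ?_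
  have h1 : (algebraMap ℂ (MvPolynomial (Fin m1 × Fin m2 × Fin m3) ℂ)
      (coeff m g)).totalDegree = 0 := totalDegree_C _
  rw [h1, zero_add]
  refine (totalDegree_finsetProd _ _).trans ?_
  refine le_trans ?_ (le_totalDegree hm)
  refine Finset.sum_le_sum fun i _ => ?_
  refine (totalDegree_pow _ _).trans ?_
  have h2 : ∀ p : Fin k × Fin k × Fin k,
      (if h : p.1.1 < m1 ∧ p.2.1.1 < m2 ∧ p.2.2.1 < m3 then
        (X (⟨p.1.1, h.1⟩, ⟨p.2.1.1, h.2.1⟩, ⟨p.2.2.1, h.2.2⟩) :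
      MvPolynomial (Fin m1 × Fin m2 × Fin m3) ℂ) else 0).totalDegree ≤ 1 := by
    intro p
    split_ifs
    · rw [totalDegree_X]
    · rw [totalDegree_zero]; omega
  exact (Nat.mul_le_mul_left _ (h2 i)).trans (by rw [mul_one])

/-- the zero extension of a tensor of rank at most `r` -/
theorem ext0_tens {k r : ℕ} (a : Fin r → Fin m1 → ℂ) (b : Fin r → Fin m2 → ℂ)
    (c : Fin r → Fin m3 → ℂ) :
    (ext0 (tensC a b c) : Fin k × Fin k × Fin k → ℂ) =
      tensC (fun s i => if h : i.1 < m1 then a s ⟨i.1, h⟩ else 0)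
        (fun s i => if h : i.1 < m2 then b s ⟨i.1, h⟩ else 0)
        (fun s i => if h : i.1 < m3 then c s ⟨i.1, h⟩ else 0) := by
  funext p
  unfold ext0 tensC
  by_cases h1 : p.1.1 < m1
  · by_cases h2 : p.2.1.1 < m2
    · by_cases h3 : p.2.2.1 < m3
      · rw [dif_pos ⟨h1, h2, h3⟩]
        refine Finset.sum_congr rfl fun s _ => ?_
        simp only
        rw [dif_pos h1, dif_pos h2, dif_pos h3]
      · rw [dif_neg (fun h => h3 h.2.2)]
        symm
        refine Finset.sum_eq_zero fun s _ => ?_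
        simp only
        rw [dif_neg h3, mul_zero]
    · rw [dif_neg (fun h => h2 h.2.1)]
      symm
      refine Finset.sum_eq_zero fun s _ => ?_
      simp only
      rw [dif_neg h2, mul_zero, zero_mul]
  · rw [dif_neg (fun h => h1 h.1)]
    symm
    refine Finset.sum_eq_zero fun s _ => ?_
    simp only
    rw [dif_neg h1, zero_mul, zero_mul]

/-- a tensor outside the secant variety on which all equations of small degree vanish -/
theorem exists_tensor {k : ℕ} (hm1 : m1 ≤ k) (hm2 : m2 ≤ k) (hm3 : m3 ≤ k)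
    (hk : k * (m1 + m2 + m3) < m1 * m2 * m3) :
    ∃ T : Fin k × Fin k × Fin k → ℂ,
      (∃ F : MvPolynomial (Fin k × Fin k × Fin k) ℂ, (∀ a b c : Fin k → Fin k → ℂ,
        eval (tensC a b c) F = 0) ∧ eval T F ≠ 0) ∧
      ∀ g : MvPolynomial (Fin k × Fin k × Fin k) ℂ, (∀ a b c : Fin k → Fin k → ℂ,
        eval (tensC a b c) g = 0) → (g.totalDegree ≤ k ∨ ∃ x : ℝ, 1 ≤ x ∧
          (g.totalDegree : ℝ) ≤ m3 * x ^ 2 + (m1 + m2 + 1) * x ∧
          hh (m1 + m2 + 1) m3 x < k) → eval T g = 0 := by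
  obtain ⟨F, hF0, hF⟩ := exists_eq (m1 := m1) (m2 := m2) (m3 := m3) (k := k) hk
  obtain ⟨T, hT⟩ : ∃ T, eval T F ≠ 0 := by
    by_contra hcon
    push Not at hcon
    exact hF0 (MvPolynomial.funext fun T => by rw [hcon T, map_zero])
  refine ⟨ext0 T, ⟨rename (fun p => (Fin.castLE hm1 p.1, Fin.castLE hm2 p.2.1,
    Fin.castLE hm3 p.2.2)) F, ?_, ?_⟩, ?_⟩
  · intro a b c
    rw [eval_rename]
    exact hF (fun s i => a s (Fin.castLE hm1 i)) (fun s i => b s (Fin.castLE hm2 i))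
      (fun s i => c s (Fin.castLE hm3 i))
  · rw [eval_rename]
    have h1 : (ext0 T ∘ fun p : Fin m1 × Fin m2 × Fin m3 =>
        ((Fin.castLE hm1 p.1, Fin.castLE hm2 p.2.1, Fin.castLE hm3 p.2.2) :
          Fin k × Fin k × Fin k)) = T := by
      funext p
      unfold ext0
      simp
    rw [h1]
    exact hT
  · intro g hg hdeg
    rw [← eval_res]
    have h1 : (res m1 m2 m3 g) = 0 := by
      by_contra h0
      have h2 := cx_bound (k := k) h0 (fun a b c => by rw [eval_res, ext0_tens]; exact hg _ _ _)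
      have h3 := deg_res (m1 := m1) (m2 := m2) (m3 := m3) g
      rcases hdeg with h4 | ⟨x, hx, h4, h5⟩
      · omega
      · have h6 : ((res m1 m2 m3 g).totalDegree : ℝ) ≤ g.totalDegree := by exact_mod_cast h3
        have h7 := h2.1 x hx (by linarith)
        linarith
    rw [h1, map_zero]

end DH
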