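import Mathlib

/-!
# DH.Ip: the Bombieri inner product on real polynomials
-/

namespace DH

open MvPolynomial Finset

variable {σ : Type*}

/-- the weight `∏ (m i)!` of a monomial -/
noncomputable def wt (m : σ →₀ ℕ) : ℝ := m.prod fun _ k => (k.factorial : ℝ)

theorem wt_pos (m : σ →₀ ℕ) : 0 < wt m :=
  Finset.prod_pos fun _ _ => Nat.cast_pos.2 (Nat.factorial_pos _)

theorem wt_add_single (m : σ →₀ ℕ) (i : σ) :
    wt (m + Finsupp.single i 1) = wt m * ((m i : ℝ) + 1) := by
  classical
  have h0 : ∀ S : Finset σ, m.support ⊆ S → wt m = ∏ x ∈ S, ((m x).factorial : ℝ) := by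
    intro S hS
    refine Finset.prod_subset hS fun x _ hx => ?_
    rw [Finsupp.notMem_support_iff] at hx
    simp [hx]
  have h1 : ∀ S : Finset σ, (m + Finsupp.single i 1).support ⊆ S →
      wt (m + Finsupp.single i 1) = ∏ x ∈ S, (((m + Finsupp.single i 1 : σ →₀ ℕ) x).factorial : ℝ) := by
    intro S hS
    refine Finset.prod_subset hS fun x _ hx => ?_
    rw [Finsupp.notMem_support_iff] at hx
    simp only [hx]
    simp
  set S : Finset σ := insert i m.support with hSdef
  have hS1 : m.support ⊆ S := Finset.subset_insert _ _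
  have hS2 : (m + Finsupp.single i 1).support ⊆ S := by
    intro x hx
    rw [Finsupp.mem_support_iff] at hx
    by_cases hxi : x = i
    · rw [hxi]; exact Finset.mem_insert_self _ _
    · apply Finset.mem_insert_of_mem
      rw [Finsupp.mem_support_iff]
      intro h
      apply hx
      rw [Finsupp.add_apply, h, Finsupp.single_apply, if_neg (fun h => hxi h.symm), add_zero]
  have hi : i ∈ S := Finset.mem_insert_self _ _
  rw [h0 S hS1, h1 S hS2, ← Finset.mul_prod_erase S _ hi,
    ← Finset.mul_prod_erase S (fun x => ((m x).factorial : ℝ)) hi]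
  have h2 : ∏ x ∈ S.erase i, (((m + Finsupp.single i 1 : σ →₀ ℕ) x).factorial : ℝ) =
      ∏ x ∈ S.erase i, ((m x).factorial : ℝ) := by
    refine Finset.prod_congr rfl fun x hx => ?_
    have hxi : x ≠ i := Finset.ne_of_mem_erase hx
    rw [Finsupp.add_apply, Finsupp.single_apply, if_neg (fun h => hxi h.symm), add_zero]
  rw [h2, Finsupp.add_apply, Finsupp.single_eq_same, Nat.factorial_succ]
  push_cast
  ring

/-- the Bombieri inner product -/
noncomputable def ip (p q : MvPolynomial σ ℝ) : ℝ :=
  ∑ m ∈ p.support, wt m * coeff m p * coeff m q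

theorem ip_eq (p q : MvPolynomial σ ℝ) (S : Finset (σ →₀ ℕ)) (hS : p.support ⊆ S) :
    ip p q = ∑ m ∈ S, wt m * coeff m p * coeff m q := by
  refine Finset.sum_subset hS fun m _ hm => ?_
  rw [notMem_support_iff] at hm
  rw [hm]
  ring

theorem ip_eq' (p q : MvPolynomial σ ℝ) (S : Finset (σ →₀ ℕ)) (hS : q.support ⊆ S) :
    ip p q = ∑ m ∈ S, wt m * coeff m p * coeff m q := by
  classical
  rw [ip_eq p q (p.support ∪ S) Finset.subset_union_left]
  symm
  refine Finset.sum_subset Finset.subset_union_right fun m _ hm => ?_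
  have : m ∉ q.support := fun h => hm (hS h)
  rw [notMem_support_iff] at this
  rw [this]
  ring

theorem ip_comm (p q : MvPolynomial σ ℝ) : ip p q = ip q p := by
  rw [ip_eq' p q q.support (Finset.Subset.refl _)]
  unfold ip
  refine Finset.sum_congr rfl fun m _ => ?_
  ring

theorem ip_add_left (p p' q : MvPolynomial σ ℝ) : ip (p + p') q = ip p q + ip p' q := by
  rw [ip_eq' (p + p') q q.support (Finset.Subset.refl _),
    ip_eq' p q q.support (Finset.Subset.refl _), ip_eq' p' q q.support (Finset.Subset.refl _),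
    ← Finset.sum_add_distrib]
  refine Finset.sum_congr rfl fun m _ => ?_
  rw [coeff_add]
  ring

theorem ip_add_right (p q q' : MvPolynomial σ ℝ) : ip p (q + q') = ip p q + ip p q' := by
  rw [ip_comm, ip_add_left, ip_comm q, ip_comm q']

theorem ip_smul_left (r : ℝ) (p q : MvPolynomial σ ℝ) : ip (r • p) q = r * ip p q := by
  rw [ip_eq' (r • p) q q.support (Finset.Subset.refl _),
    ip_eq' p q q.support (Finset.Subset.refl _), Finset.mul_sum]
  refine Finset.sum_congr rfl fun m _ => ?_
  rw [coeff_smul, smul_eq_mul]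
  ring

theorem ip_smul_right (r : ℝ) (p q : MvPolynomial σ ℝ) : ip p (r • q) = r * ip p q := by
  rw [ip_comm, ip_smul_left, ip_comm q]

theorem ip_neg_right (p q : MvPolynomial σ ℝ) : ip p (-q) = - ip p q := by
  have h := ip_smul_right (-1) p q
  rw [neg_one_smul] at h
  rw [h]
  ring

theorem ip_zero_left (q : MvPolynomial σ ℝ) : ip 0 q = 0 := by
  have h := ip_smul_left 0 q q
  rwa [zero_smul, zero_mul] at h

theorem ip_zero_right (q : MvPolynomial σ ℝ) : ip q 0 = 0 := by
  rw [ip_comm, ip_zero_left]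

theorem ip_sum_left {ι : Type*} (s : Finset ι) (p : ι → MvPolynomial σ ℝ)
    (q : MvPolynomial σ ℝ) : ip (∑ i ∈ s, p i) q = ∑ i ∈ s, ip (p i) q := by
  classical
  induction s using Finset.induction_on with
  | empty => simp [ip_zero_left]
  | insert a s ha ih => rw [Finset.sum_insert ha, Finset.sum_insert ha, ip_add_left, ih]

theorem ip_sum_right {ι : Type*} (s : Finset ι) (p : MvPolynomial σ ℝ)
    (q : ι → MvPolynomial σ ℝ) : ip p (∑ i ∈ s, q i) = ∑ i ∈ s, ip p (q i) := by
  rw [ip_comm, ip_sum_left]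
  exact Finset.sum_congr rfl fun i _ => ip_comm _ _

/-- multiplication by a variable is adjoint to the derivative -/
theorem ip_X_mul (i : σ) (p q : MvPolynomial σ ℝ) : ip (X i * p) q = ip p (pderiv i q) := by
  unfold ip
  rw [support_X_mul, Finset.sum_map]
  refine Finset.sum_congr rfl fun m _ => ?_
  rw [addLeftEmbedding_apply, coeff_X_mul, coeff_pderiv, add_comm (Finsupp.single i 1) m,
    wt_add_single]
  ring

theorem ip_mul_X (i : σ) (p q : MvPolynomial σ ℝ) : ip p (X i * q) = ip (pderiv i p) q := by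
  rw [ip_comm, ip_X_mul, ip_comm]

theorem ip_self_nonneg (p : MvPolynomial σ ℝ) : 0 ≤ ip p p := by
  refine Finset.sum_nonneg fun m _ => ?_
  have := (wt_pos m).le
  have h2 : wt m * coeff m p * coeff m p = wt m * (coeff m p) ^ 2 := by ring
  rw [h2]
  positivity

theorem ip_self_pos {p : MvPolynomial σ ℝ} (hp : p ≠ 0) : 0 < ip p p := by
  obtain ⟨m, hm⟩ := Finset.nonempty_iff_ne_empty.2 (fun h => hp (support_eq_empty.1 h))
  have h1 : wt m * coeff m p * coeff m p ≤ ip p p := by
    refine Finset.single_le_sum (f := fun m => wt m * coeff m p * coeff m p) (fun m _ => ?_) hm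
    have := (wt_pos m).le
    have h2 : wt m * coeff m p * coeff m p = wt m * (coeff m p) ^ 2 := by ring
    rw [h2]
    positivity
  have h2 : 0 < wt m * coeff m p * coeff m p := by
    rw [mul_assoc]
    refine mul_pos (wt_pos m) (mul_self_pos.2 ?_)
    exact mem_support_iff.1 hm
  linarith

theorem pd_comm (u v : σ) (F : MvPolynomial σ ℝ) :
    pderiv u (pderiv v F) = pderiv v (pderiv u F) := by
  classical
  ext m
  rw [coeff_pderiv, coeff_pderiv, coeff_pderiv, coeff_pderiv]
  by_cases h : u = v
  · subst h; ring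
  · have e1 : (m + Finsupp.single u 1 : σ →₀ ℕ) v = m v := by
      rw [Finsupp.add_apply, Finsupp.single_apply, if_neg h, add_zero]
    have e2 : (m + Finsupp.single v 1 : σ →₀ ℕ) u = m u := by
      rw [Finsupp.add_apply, Finsupp.single_apply, if_neg (fun h' => h h'.symm), add_zero]
    rw [e1, e2, add_right_comm]
    ring

theorem pd_X_mul_self (u : σ) (F : MvPolynomial σ ℝ) :
    pderiv u (X u * F) = F + X u * pderiv u F := by
  rw [pderiv_mul, pderiv_X_self]
  ring

theorem pd_X_mul_ne {u v : σ} (h : v ≠ u) (F : MvPolynomial σ ℝ) :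
    pderiv u (X v * F) = X v * pderiv u F := by
  rw [pderiv_mul, pderiv_X_of_ne h]
  ring

/-- expansion of the inner product of two linear combinations of variables -/
theorem ip_lin {ι : Type*} [Fintype ι] (v : ι → σ) (hv : Function.Injective v)
    (G H : ι → MvPolynomial σ ℝ) :
    ip (∑ i, X (v i) * G i) (∑ i, X (v i) * H i) =
      ∑ i, ip (G i) (H i) + ∑ i, ∑ i', ip (pderiv (v i') (G i)) (pderiv (v i) (H i')) := by
  classical
  rw [ip_sum_left, ← Finset.sum_add_distrib]
  refine Finset.sum_congr rfl fun i _ => ?_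
  rw [ip_sum_right]
  have h1 : ∀ i', ip (X (v i) * G i) (X (v i') * H i') =
      (if i' = i then ip (G i) (H i) else 0) +
        ip (pderiv (v i') (G i)) (pderiv (v i) (H i')) := by
    intro i'
    rw [ip_X_mul]
    by_cases h : i' = i
    · subst h
      rw [if_pos rfl, pd_X_mul_self, ip_add_right, ip_mul_X]
    · rw [if_neg h, pd_X_mul_ne (fun h' => h (hv h')), ip_mul_X, zero_add]
  rw [Finset.sum_congr rfl fun i' _ => h1 i', Finset.sum_add_distrib, Finset.sum_ite_eq']
  simp

/-- the double sums are bounded below -/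
theorem ip_pair {ι : Type*} [Fintype ι] (v : ι → σ) (hv : Function.Injective v)
    (H : ι → MvPolynomial σ ℝ) :
    - ∑ i, ip (H i) (H i) ≤ ∑ i, ∑ i', ip (pderiv (v i') (H i)) (pderiv (v i) (H i')) := by
  have h1 := ip_lin v hv H H
  have h2 := ip_self_nonneg (∑ i, X (v i) * H i)
  linarith

/-- Euler operator -/
noncomputable def eul {ι : Type*} [Fintype ι] (v : ι → σ) (F : MvPolynomial σ ℝ) :
    MvPolynomial σ ℝ := ∑ i, X (v i) * pderiv (v i) F

theorem sum_pd_sq {ι : Type*} [Fintype ι] (v : ι → σ) {F : MvPolynomial σ ℝ} {m : ℝ}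
    (h : eul v F = m • F) :
    ∑ i, ip (pderiv (v i) F) (pderiv (v i) F) = m * ip F F := by
  rw [← ip_smul_right, ← h, eul, ip_sum_right]
  refine Finset.sum_congr rfl fun i _ => ?_
  rw [ip_mul_X]

theorem eul_pd_ne {ι : Type*} [Fintype ι] (v : ι → σ) {u : σ} (hu : ∀ i, v i ≠ u)
    {F : MvPolynomial σ ℝ} {m : ℝ} (h : eul v F = m • F) :
    eul v (pderiv u F) = m • pderiv u F := by
  have h1 := congrArg (pderiv u) h
  rw [eul, map_sum, Derivation.map_smul] at h1
  rw [eul, ← h1]
  refine Finset.sum_congr rfl fun i _ => ?_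
  rw [pd_X_mul_ne (hu i), pd_comm]

theorem eul_pd_self {ι : Type*} [Fintype ι] [DecidableEq ι] (v : ι → σ)
    (hv : Function.Injective v) (j : ι)
    {F : MvPolynomial σ ℝ} {m : ℝ} (h : eul v F = m • F) :
    eul v (pderiv (v j) F) = (m - 1) • pderiv (v j) F := by
  have h1 := congrArg (pderiv (v j)) h
  rw [eul, map_sum, Derivation.map_smul] at h1
  rw [sub_smul, ← h1, one_smul, eul]
  have h2 : ∀ i, pderiv (v j) (X (v i) * pderiv (v i) F) =
      (if i = j then pderiv (v j) F else 0) + X (v i) * pderiv (v i) (pderiv (v j) F) := by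
    intro i
    by_cases hij : i = j
    · subst hij
      rw [if_pos rfl, pd_X_mul_self]
    · rw [if_neg hij, pd_X_mul_ne (fun h' => hij (hv h')), pd_comm, zero_add]
  rw [Finset.sum_congr rfl fun i _ => h2 i, Finset.sum_add_distrib, Finset.sum_ite_eq']
  simp

end DH
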