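import Pool.Agent.Lib.MP_d70044_ag.DH.Sing

/-!
# DH.Key: the key inequality

`F` is a real polynomial in variables `a_i, b_j, w_ijl` (`i < m1, j < m2, l < m3`), of degree `m`
in the `a`, of degree `m` in the `b`, of degree `r` in the `w`. Then
`∑_l ‖∑_ij a_i b_j ∂F/∂w_ijl‖² ≥ (r - (m1 + m2) m - m3 m²) ‖F‖²`.
-/

namespace DH

open MvPolynomial Finset

/-- the double sums for one pair of factors -/
theorem doubles {σ : Type*} {I J : Type*} [Fintype I] [Fintype J] (va : I → σ) (vb : J → σ)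
    (vw : I → J → σ) (hvw : ∀ i j i' j', vw i j = vw i' j' → i = i' ∧ j = j')
    (hab : ∀ i j, vb j ≠ va i)
    {F : MvPolynomial σ ℝ} {m : ℝ} (hA : eul va F = m • F) (hB : eul vb F = m • F) :
    - (m ^ 2 * ip F F) ≤ ∑ i, ∑ i', ∑ j, ∑ j', ip (pderiv (vb j') (pderiv (va i')
        (pderiv (vw i j) F))) (pderiv (vb j) (pderiv (va i) (pderiv (vw i' j') F))) := by
  have h0 := ip_pair (ι := I × J) (fun p => vw p.1 p.2)
    (fun p q h => Prod.ext_iff.2 (hvw _ _ _ _ h))
    (fun p => pderiv (va p.1) (pderiv (vb p.2) F))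
  have h1 : ∑ p : I × J, ip (pderiv (va p.1) (pderiv (vb p.2) F))
      (pderiv (va p.1) (pderiv (vb p.2) F)) = m ^ 2 * ip F F := by
    rw [Fintype.sum_prod_type]
    have h2 : ∀ i, ∑ j, ip (pderiv (va i) (pderiv (vb j) F)) (pderiv (va i) (pderiv (vb j) F)) =
        m * ip (pderiv (va i) F) (pderiv (va i) F) := by
      intro i
      rw [← sum_pd_sq vb (eul_pd_ne vb (fun j => hab i j) hB)]
      refine Finset.sum_congr rfl fun j _ => ?_
      rw [pd_comm (va i) (vb j) F]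
    rw [Finset.sum_congr rfl fun i _ => h2 i, ← Finset.mul_sum, sum_pd_sq va hA]
    ring
  rw [h1] at h0
  refine h0.trans (le_of_eq ?_)
  simp only [Fintype.sum_prod_type]
  refine Finset.sum_congr rfl fun i _ => ?_
  rw [Finset.sum_comm]
  refine Finset.sum_congr rfl fun i' _ => Finset.sum_congr rfl fun j _ =>
    Finset.sum_congr rfl fun j' _ => ?_
  rw [ip_comm]
  rw [pd_comm (vw i j) (va i') _, pd_comm (vw i j) (vb j') F, pd_comm (vw i' j') (va i) _,
    pd_comm (vw i' j') (vb j) F, pd_comm (va i') (vb j') _, pd_comm (va i) (vb j) _]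

/-- the variables `a_i`, `b_j`, `w_ijl` -/
abbrev V2 (m1 m2 m3 : ℕ) : Type := Fin m1 ⊕ Fin m2 ⊕ (Fin m1 × Fin m2 × Fin m3)

variable {m1 m2 m3 : ℕ}

/-- the variables of the two factors -/
abbrev a (i : Fin m1) : V2 m1 m2 m3 := Sum.inl i
abbrev b (j : Fin m2) : V2 m1 m2 m3 := Sum.inr (Sum.inl j)
abbrev w (i : Fin m1) (j : Fin m2) (l : Fin m3) : V2 m1 m2 m3 := Sum.inr (Sum.inr (i, j, l))
abbrev ww (p : Fin m1 × Fin m2 × Fin m3) : V2 m1 m2 m3 := Sum.inr (Sum.inr p)

abbrev P (m1 m2 m3 : ℕ) := MvPolynomial (V2 m1 m2 m3) ℝ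

theorem a_inj : Function.Injective (a : Fin m1 → V2 m1 m2 m3) := Sum.inl_injective
theorem b_inj : Function.Injective (b : Fin m2 → V2 m1 m2 m3) :=
  Sum.inr_injective.comp Sum.inl_injective
theorem ww_inj : Function.Injective (ww : Fin m1 × Fin m2 × Fin m3 → V2 m1 m2 m3) :=
  Sum.inr_injective.comp Sum.inr_injective

/-- `Th l F = ∑ a_i b_j ∂F/∂w_ijl` -/
noncomputable def Th (l : Fin m3) (F : P m1 m2 m3) : P m1 m2 m3 :=
  ∑ i, X (a i) * ∑ j, X (b j) * pderiv (w i j l) F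

/-- the degree conditions -/
structure Good (m r : ℝ) (F : P m1 m2 m3) : Prop where
  ea : eul a F = m • F
  eb : eul b F = m • F
  ew : eul ww F = r • F

theorem key {m r : ℝ} {F : P m1 m2 m3} (h : Good m r F) :
    (r - (m1 + m2) * m - m3 * m ^ 2) * ip F F ≤ ∑ l, ip (Th l F) (Th l F) := by
  have hexp : ∀ l : Fin m3, ip (Th l F) (Th l F) =
      (∑ i, ∑ j, ip (pderiv (w i j l) F) (pderiv (w i j l) F)) +
      (∑ i, ∑ j, ∑ j', ip (pderiv (b j') (pderiv (w i j l) F))
        (pderiv (b j) (pderiv (w i j' l) F))) +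
      ((∑ i, ∑ i', ∑ j, ip (pderiv (a i') (pderiv (w i j l) F))
        (pderiv (a i) (pderiv (w i' j l) F))) +
      (∑ i, ∑ i', ∑ j, ∑ j', ip (pderiv (b j') (pderiv (a i') (pderiv (w i j l) F)))
        (pderiv (b j) (pderiv (a i) (pderiv (w i' j' l) F))))) := by
    intro l
    have hpd : ∀ (i : Fin m1) (G : Fin m2 → P m1 m2 m3),
        pderiv (a i) (∑ j, X (b j) * G j) = ∑ j, X (b j) * pderiv (a i) (G j) := by
      intro i G
      rw [map_sum]
      refine Finset.sum_congr rfl fun l _ => pd_X_mul_ne (by simp) _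
    unfold Th
    rw [ip_lin _ a_inj]
    simp only [hpd, ip_lin _ b_inj, Finset.sum_add_distrib]
  simp only [hexp, Finset.sum_add_distrib]
  have h0 : ∑ l : Fin m3, ∑ i : Fin m1, ∑ j : Fin m2,
      ip (pderiv (w i j l) F) (pderiv (w i j l) F) = r * ip F F := by
    rw [← sum_pd_sq _ h.ew]
    simp only [Fintype.sum_prod_type]
    rw [Finset.sum_comm]
    exact Finset.sum_congr rfl fun i _ => Finset.sum_comm
  have hA := singles (K := Fin m2 × Fin m3) a (fun i k => w i k.1 k.2) (by simp)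
    (by
      rintro i ⟨k1, k2⟩ i' ⟨k1', k2'⟩ h
      simpa using h) F
  have hB := singles (K := Fin m1 × Fin m3) b (fun j k => w k.1 j k.2) (by simp)
    (by
      rintro i ⟨k1, k2⟩ i' ⟨k1', k2'⟩ h
      simp at h ⊢
      tauto) F
  rw [sum_pd_sq _ h.ea] at hA
  rw [sum_pd_sq _ h.eb] at hB
  simp only [Fintype.sum_prod_type] at hA hB
  have hAB : ∀ l : Fin m3, - (m ^ 2 * ip F F) ≤ _ := fun l =>
    doubles a b (fun i j => w i j l) (fun i j i' j' h => by simpa using h)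
      (by simp) h.ea h.eb
  have hAB' := Finset.sum_le_sum fun l (_ : l ∈ (Finset.univ : Finset (Fin m3))) => hAB l
  rw [Finset.sum_const, Finset.card_univ, Fintype.card_fin, nsmul_eq_mul] at hAB'
  have eA : (∑ l : Fin m3, ∑ i, ∑ i', ∑ j, ip (pderiv (a i') (pderiv (w i j l) F))
        (pderiv (a i) (pderiv (w i' j l) F))) =
      ∑ i, ∑ i', ∑ j, ∑ l : Fin m3, ip (pderiv (a i') (pderiv (w i j l) F))
        (pderiv (a i) (pderiv (w i' j l) F)) := by
    rw [Finset.sum_comm]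
    refine Finset.sum_congr rfl fun i _ => ?_
    rw [Finset.sum_comm]
    refine Finset.sum_congr rfl fun i' _ => ?_
    rw [Finset.sum_comm]
  have eB : (∑ l : Fin m3, ∑ i, ∑ j, ∑ j', ip (pderiv (b j') (pderiv (w i j l) F))
        (pderiv (b j) (pderiv (w i j' l) F))) =
      ∑ j, ∑ j', ∑ i, ∑ l : Fin m3, ip (pderiv (b j') (pderiv (w i j l) F))
        (pderiv (b j) (pderiv (w i j' l) F)) := by
    calc _ = ∑ i, ∑ l : Fin m3, ∑ j, ∑ j', ip (pderiv (b j') (pderiv (w i j l) F))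
          (pderiv (b j) (pderiv (w i j' l) F)) := Finset.sum_comm
      _ = ∑ i, ∑ j, ∑ l : Fin m3, ∑ j', ip (pderiv (b j') (pderiv (w i j l) F))
          (pderiv (b j) (pderiv (w i j' l) F)) :=
          Finset.sum_congr rfl fun i _ => Finset.sum_comm
      _ = ∑ i, ∑ j, ∑ j', ∑ l : Fin m3, ip (pderiv (b j') (pderiv (w i j l) F))
          (pderiv (b j) (pderiv (w i j' l) F)) :=
          Finset.sum_congr rfl fun i _ => Finset.sum_congr rfl fun j _ => Finset.sum_comm
      _ = ∑ j, ∑ i, ∑ j', ∑ l : Fin m3, ip (pderiv (b j') (pderiv (w i j l) F))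
          (pderiv (b j) (pderiv (w i j' l) F)) := Finset.sum_comm
      _ = _ := Finset.sum_congr rfl fun j _ => Finset.sum_comm
  rw [h0, eA, eB]
  have hU : (r - (m1 + m2) * m - m3 * m ^ 2) * ip F F = r * ip F F - m1 * (m * ip F F) -
      m2 * (m * ip F F) - m3 * (m ^ 2 * ip F F) := by ring
  rw [hU]
  linarith

end DH
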