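import Pool.Agent.Lib.MP_d70044_ag.DH.Gen
import Mathlib

/-!
# DH.Num: the choice of the format
-/

namespace DH

open MvPolynomial

theorem log_ge {k : ℕ} (hk : 961 ≤ k) : (6.8 : ℝ) ≤ Real.log k := by
  have h1 : Real.exp 34 ≤ (961 : ℝ) ^ 5 := by
    have h2 : Real.exp 34 = Real.exp 1 ^ 34 := by
      rw [← Real.exp_nat_mul]
      norm_num
    rw [h2]
    calc Real.exp 1 ^ 34 ≤ (2.7182818286 : ℝ) ^ 34 :=
          pow_le_pow_left₀ (Real.exp_pos 1).le Real.exp_one_lt_d9.le 34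
      _ ≤ 961 ^ 5 := by norm_num
  have h3 : (34 : ℝ) ≤ Real.log ((961 : ℝ) ^ 5) := by
    rw [Real.le_log_iff_exp_le (by norm_num)]
    exact h1
  rw [Real.log_pow] at h3
  have h4 : Real.log 961 ≤ Real.log k := Real.log_le_log (by norm_num) (by exact_mod_cast hk)
  push_cast at h3
  linarith

theorem exp68 : (890 : ℝ) ≤ Real.exp 6.8 := by
  have h1 : (890 : ℝ) ^ 5 ≤ Real.exp 6.8 ^ 5 := by
    have h2 : Real.exp 6.8 ^ 5 = Real.exp 1 ^ 34 := by
      rw [← Real.exp_nat_mul, ← Real.exp_nat_mul]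
      norm_num
    rw [h2]
    calc (890 : ℝ) ^ 5 ≤ (2.7182818283 : ℝ) ^ 34 := by norm_num
      _ ≤ Real.exp 1 ^ 34 := pow_le_pow_left₀ (by norm_num) Real.exp_one_gt_d9.le 34
  by_contra hcon
  push Not at hcon
  have h3 := pow_lt_pow_left₀ hcon (Real.exp_pos _).le (n := 5) (by norm_num)
  linarith

theorem exp55 : Real.exp 5.5 ≤ 249.6 := by
  by_contra hcon
  push Not at hcon
  have h3 := pow_lt_pow_left₀ hcon (by norm_num) (n := 2) (by norm_num)
  have h2 : Real.exp 5.5 ^ 2 = Real.exp 1 ^ 11 := by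
    rw [← Real.exp_nat_mul, ← Real.exp_nat_mul]
    norm_num
  rw [h2] at h3
  have h4 : Real.exp 1 ^ 11 ≤ (2.7182818286 : ℝ) ^ 11 :=
    pow_le_pow_left₀ (Real.exp_pos 1).le Real.exp_one_lt_d9.le 11
  have h5 : (2.7182818286 : ℝ) ^ 11 ≤ 249.6 ^ 2 := by norm_num
  linarith

theorem exp_cubic {u : ℝ} (hu : 0 ≤ u) : 1 + u + u ^ 2 / 2 + u ^ 3 / 6 ≤ Real.exp u := by
  have h := Real.sum_le_exp_of_nonneg hu 4
  simp only [Finset.sum_range_succ, Finset.sum_range_zero] at h
  norm_num [Nat.factorial] at h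
  linarith

theorem big {k : ℕ} (hk : 961 ≤ k) : ∃ n p : ℕ, n ≤ k ∧ p ≤ k ∧
    k * (n + n + p) < n * n * p ∧ ∀ D : ℕ, 128 * (1 + Real.log k) * D < (k : ℝ) ^ 2 →
      ∃ x : ℝ, 1 ≤ x ∧ (D : ℝ) ≤ p * x ^ 2 + (n + n + 1) * x ∧ hh (n + n + 1) p x < k := by
  have hk0 : (961 : ℝ) ≤ k := by exact_mod_cast hk
  have hkpos : (0 : ℝ) < k := by linarith
  set L : ℝ := 1 + Real.log k with hL
  have hL7 : 7.8 ≤ L := by
    have := log_ge hk
    linarith
  obtain ⟨u, hu0, hu⟩ : ∃ u : ℝ, 0 ≤ u ∧ L = u + 7.8 := ⟨L - 7.8, by linarith, by ring⟩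
  have hkexp : 890 * (1 + u + u ^ 2 / 2 + u ^ 3 / 6) ≤ (k : ℝ) := by
    have h1 : (k : ℝ) = Real.exp 6.8 * Real.exp u := by
      rw [← Real.exp_add]
      have h2 : (6.8 : ℝ) + u = Real.log k := by linarith
      rw [h2, Real.exp_log hkpos]
    rw [h1]
    exact mul_le_mul exp68 (exp_cubic hu0) (by positivity) (Real.exp_pos _).le
  set p : ℕ := ⌈8 * L⌉₊ with hp
  have hp1 : 8 * L ≤ p := Nat.le_ceil _
  have hp2 : (p : ℝ) < 8 * L + 1 := Nat.ceil_lt_add_one (by linarith)
  have hppos : (0 : ℝ) < p := by linarith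
  set q : ℕ := ⌈2 * (k : ℝ) / p⌉₊ with hq
  have hq1 : 2 * (k : ℝ) / p ≤ q := Nat.le_ceil _
  have hq2 : (q : ℝ) < 2 * (k : ℝ) / p + 1 := Nat.ceil_lt_add_one (by positivity)
  have hq1' : 2 * (k : ℝ) ≤ q * p := by
    rw [div_le_iff₀ hppos] at hq1
    exact hq1
  have h4p : 4 * (p : ℝ) ≤ k := by nlinarith [pow_nonneg hu0 2, pow_nonneg hu0 3]
  have hq2' : (q : ℝ) * p < 2 * k + p := by
    have h1 := mul_lt_mul_of_pos_right hq2 hppos
    rw [add_mul, div_mul_cancel₀ _ hppos.ne', one_mul] at h1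
    exact h1
  refine ⟨q + p, p, ?_, ?_, ?_, ?_⟩
  · have h1 : (62.4 : ℝ) ≤ p := by linarith
    have h2 : (q : ℝ) * 62.4 ≤ q * p := mul_le_mul_of_nonneg_left h1 (by positivity)
    have h3 : ((q + p : ℕ) : ℝ) ≤ k := by
      push_cast
      linarith
    exact_mod_cast h3
  · have h3 : (p : ℝ) ≤ k := by linarith
    exact_mod_cast h3
  · have h1 : ((k * (q + p + (q + p) + p) : ℕ) : ℝ) < (((q + p) * (q + p) * p : ℕ) : ℝ) := by
      push_cast
      have h2 : 2 * (k : ℝ) + p * p ≤ (q + p) * p := by nlinarith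
      have h3 : ((q : ℝ) + p) * (2 * (k : ℝ) + p * p) ≤ ((q : ℝ) + p) * ((q + p) * p) :=
        mul_le_mul_of_nonneg_left h2 (by positivity)
      have h4 : (p : ℝ) * (2 * (k : ℝ) + p * p) ≤ p * ((q + p) * p) :=
        mul_le_mul_of_nonneg_left h2 (by positivity)
      have h5 : 0 < (p : ℝ) * k := by positivity
      have h6 : 0 < (p : ℝ) * p * p := by positivity
      nlinarith
    exact_mod_cast h1
  · intro D hD
    have hpk : (0 : ℝ) < 4 * p := by linarith
    refine ⟨k / (4 * p), ?_, ?_, ?_⟩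
    · rw [le_div_iff₀ hpk]
      linarith
    · push_cast
      have h1 : (p : ℝ) * (k / (4 * p)) ^ 2 = k ^ 2 / (16 * p) := by
        field_simp
        ring
      have h2 : (k : ℝ) ^ 2 / p ^ 2 ≤ ((q + p) + (q + p) + 1) * (k / (4 * p)) := by
        rw [mul_div_assoc', div_le_div_iff₀ (by positivity) hpk]
        have h3 : (k : ℝ) * p * (2 * k) ≤ k * p * (q * p) :=
          mul_le_mul_of_nonneg_left hq1' (by positivity)
        have h4 : 0 < (k : ℝ) * p ^ 3 := by positivity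
        have h5 : 0 < (k : ℝ) * p ^ 2 := by positivity
        nlinarith
      have h3 : (D : ℝ) ≤ k ^ 2 / (128 * L) := by
        rw [le_div_iff₀ (by linarith)]
        nlinarith
      have h4 : (k : ℝ) ^ 2 / (128 * L) ≤ k ^ 2 / (16 * p) + k ^ 2 / p ^ 2 := by
        have h5 : (1 : ℝ) / (128 * L) ≤ 1 / (16 * p) + 1 / p ^ 2 := by
          rw [div_add_div _ _ (by positivity) (by positivity),
            div_le_div_iff₀ (by linarith) (by positivity)]
          have h6 : (p : ℝ) * p ≤ 8 * L * (p + 16) := by nlinarith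
          have h7 := mul_le_mul_of_nonneg_left h6 hppos.le
          nlinarith
        have h6 := mul_le_mul_of_nonneg_left h5 (pow_nonneg hkpos.le 2)
        have h8 : (k : ℝ) ^ 2 / (128 * L) = (k : ℝ) ^ 2 * (1 / (128 * L)) := by ring
        have h9 : (k : ℝ) ^ 2 * (1 / (16 * p) + 1 / p ^ 2) =
            (k : ℝ) ^ 2 / (16 * p) + (k : ℝ) ^ 2 / p ^ 2 := by ring
        linarith
      rw [h1]
      linarith
    · unfold hh
      push_cast
      have h1 : 2 * (p : ℝ) * (k / (4 * p)) = k / 2 := by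
        field_simp
        ring
      rw [h1]
      have h2 : Real.log (k / (4 * p)) = Real.log k - Real.log (4 * p) :=
        Real.log_div hkpos.ne' hpk.ne'
      have h3 : (5.5 : ℝ) ≤ Real.log (4 * p) := by
        rw [Real.le_log_iff_exp_le hpk]
        refine exp55.trans ?_
        linarith
      rw [h2]
      obtain ⟨v, hv⟩ : ∃ v, Real.log (4 * (p : ℝ)) = v := ⟨_, rfl⟩
      rw [hv] at h3 ⊢
      have hvL : v ≤ L := by
        rw [← hv, hL]
        have : Real.log (4 * (p : ℝ)) ≤ Real.log k := Real.log_le_log hpk h4p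
        linarith
      have h4 : 1 + (Real.log k - v) = L - v := by rw [hL]; ring
      rw [h4]
      -- (2n+1)(L-v) < k/2
      have h5 : ((q : ℝ) + p + (q + p) + 1) * p ≤ 4 * k + (2 * p + 3) * p := by nlinarith
      have h6 : ((q : ℝ) + p + (q + p) + 1) * p * (L - v) ≤
          (4 * k + (2 * p + 3) * p) * (L - v) :=
        mul_le_mul_of_nonneg_right h5 (by linarith)
      have h7 : (2 * (p : ℝ) + 3) * p * (L - v) < 4 * k * v := by
        have h8 : (2 * (p : ℝ) + 3) * p ≤ (16 * L + 5) * (8 * L + 1) :=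
          mul_le_mul (by linarith) hp2.le hppos.le (by linarith)
        have h9 : (2 * (p : ℝ) + 3) * p * (L - v) ≤
            (16 * L + 5) * (8 * L + 1) * (L - 5.5) :=
          mul_le_mul h8 (by linarith) (by linarith) (by nlinarith)
        have h10 : (16 * L + 5) * (8 * L + 1) * (L - 5.5) < 22 * k := by
          rw [hu]
          nlinarith [pow_nonneg hu0 2, pow_nonneg hu0 3]
        have h11 : 22 * (k : ℝ) ≤ 4 * k * v := by nlinarith
        linarith
      have h8 : 4 * (k : ℝ) * L ≤ k / 2 * p := by nlinarith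
      have h9 : ((q : ℝ) + p + (q + p) + 1) * (L - v) * p < k / 2 * p := by
        nlinarith
      have h10 := lt_of_mul_lt_mul_right h9 hppos.le
      linarith

theorem small_log {k : ℕ} (hk1 : 1 ≤ k) (hk : k ≤ 960) : (k : ℝ) ≤ 128 * (1 + Real.log k) := by
  have hl2 : (0.693 : ℝ) < Real.log 2 := by
    have := Real.log_two_gt_d9
    linarith
  have hkpos : (1 : ℝ) ≤ k := by exact_mod_cast hk1
  rcases Nat.lt_or_ge k 129 with h | h
  · have h1 : (k : ℝ) ≤ 128 := by exact_mod_cast (by omega : k ≤ 128)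
    have h2 := Real.log_nonneg hkpos
    linarith
  rcases Nat.lt_or_ge k 749 with h' | h'
  · have h1 : (k : ℝ) ≤ 748 := by exact_mod_cast (by omega : k ≤ 748)
    have h2 : Real.log ((2 : ℝ) ^ 7) ≤ Real.log k := by
      refine Real.log_le_log (by norm_num) ?_
      have : (128 : ℝ) ≤ k := by exact_mod_cast (by omega : 128 ≤ k)
      linarith
    rw [Real.log_pow] at h2
    push_cast at h2
    linarith
  · have h1 : (k : ℝ) ≤ 960 := by exact_mod_cast hk
    have h2 : Real.log ((2 : ℝ) ^ 19) ≤ Real.log ((k : ℝ) ^ 2) := by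
      refine Real.log_le_log (by norm_num) ?_
      have h3 : (749 : ℝ) ≤ k := by exact_mod_cast h'
      nlinarith
    rw [Real.log_pow, Real.log_pow] at h2
    push_cast at h2
    linarith

/-- for every `k` at least `4` there is a tensor outside the secant variety at which all
equations of degree below `k ^ 2 / (128 (1 + log k))` (and of degree at most `k`) vanish -/
theorem main_tensor {k : ℕ} (hk : 4 ≤ k) : ∃ T : Fin k × Fin k × Fin k → ℂ,
      (∃ F : MvPolynomial (Fin k × Fin k × Fin k) ℂ, (∀ a b c : Fin k → Fin k → ℂ,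
        eval (tensC a b c) F = 0) ∧ eval T F ≠ 0) ∧
      ∀ g : MvPolynomial (Fin k × Fin k × Fin k) ℂ, (∀ a b c : Fin k → Fin k → ℂ,
        eval (tensC a b c) g = 0) → (g.totalDegree ≤ k ∨
          128 * (1 + Real.log k) * g.totalDegree < (k : ℝ) ^ 2) → eval T g = 0 := by
  rcases Nat.lt_or_ge k 961 with h | h
  · have h1 : 3 * k < (Nat.sqrt (3 * k) + 1) * (Nat.sqrt (3 * k) + 1) := Nat.lt_succ_sqrt _
    have h2 : Nat.sqrt (3 * k) < k := by
      rw [Nat.sqrt_lt]
      nlinarith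
    obtain ⟨n, hn⟩ : ∃ n, n = Nat.sqrt (3 * k) + 1 := ⟨_, rfl⟩
    rw [← hn] at h1
    have h3 : n ≤ k := by omega
    have h4 : k * (n + n + n) < n * n * n := by
      have hn0 : 0 < n := by omega
      nlinarith
    obtain ⟨T, hT, hg⟩ := exists_tensor h3 h3 h3 h4
    refine ⟨T, hT, fun g hg1 hg2 => hg g hg1 (Or.inl ?_)⟩
    rcases hg2 with hg2 | hg2
    · exact hg2
    · have h5 := small_log (by omega : 1 ≤ k) (by omega)
      have hkpos : (0 : ℝ) < k := by exact_mod_cast (by omega : 0 < k)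
      by_contra hcon
      push Not at hcon
      have h6 : (k : ℝ) < g.totalDegree := by exact_mod_cast hcon
      nlinarith
  · obtain ⟨n, p, h1, h2, h3, h4⟩ := big h
    obtain ⟨T, hT, hg⟩ := exists_tensor h1 h1 h2 h3
    refine ⟨T, hT, fun g hg1 hg2 => hg g hg1 ?_⟩
    rcases hg2 with hg2 | hg2
    · exact Or.inl hg2
    · exact Or.inr (h4 _ hg2)

end DH
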