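import Mathlib

/-!
# DH.Spec: a symmetric operator without negative eigenvalues is nonnegative
-/

namespace DH

theorem nonneg_of_eigen {W : Type*} [AddCommGroup W] [Module ℝ W] [FiniteDimensional ℝ W]
    (B : W → W → ℝ) (hadd : ∀ x y z, B (x + y) z = B x z + B y z)
    (hsmul : ∀ (r : ℝ) x y, B (r • x) y = r * B x y)
    (hs : ∀ x y, B x y = B y x) (hp : ∀ x, x ≠ 0 → 0 < B x x)
    (T : W →ₗ[ℝ] W) (hT : ∀ x y, B (T x) y = B x (T y))
    (he : ∀ (μ : ℝ) (x : W), x ≠ 0 → T x = μ • x → 0 ≤ μ) (x : W) : 0 ≤ B x (T x) := by
  have h0 : B 0 0 = 0 := by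
    have := hsmul 0 0 0
    rwa [zero_smul, zero_mul] at this
  let core : InnerProductSpace.Core ℝ W :=
    { inner := B
      conj_inner_symm := fun x y => by
        rw [hs y x]
        exact (RCLike.conj_to_real (x := B x y))
      re_inner_nonneg := fun x => by
        by_cases h : x = 0
        · subst h; simp [h0]
        · simpa using (hp x h).le
      add_left := hadd
      smul_left := fun x y r => by
        rw [hsmul]
        simp
      definite := fun x hx => by
        by_contra h
        exact (hp x h).ne' hx }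
  letI : NormedAddCommGroup W := core.toNormedAddCommGroup
  letI : InnerProductSpace ℝ W := InnerProductSpace.ofCore core.toCore
  have hin : ∀ x y : W, inner ℝ x y = B x y := fun _ _ => rfl
  have hsym : T.IsSymmetric := fun x y => by rw [hin, hin, hT]
  set b := hsym.eigenvectorBasis rfl with hb
  have h1 : T x = ∑ i, (inner ℝ (b i) x) • (hsym.eigenvalues rfl i • b i) := by
    conv_lhs => rw [← b.sum_repr' x]
    rw [map_sum]
    refine Finset.sum_congr rfl fun i _ => ?_
    rw [map_smul, hsym.apply_eigenvectorBasis]
    rfl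
  rw [← hin, h1, inner_sum]
  refine Finset.sum_nonneg fun i _ => ?_
  rw [inner_smul_right, inner_smul_right, real_inner_comm]
  have h2 : 0 ≤ hsym.eigenvalues rfl i := by
    refine he _ (b i) ?_ ?_
    · exact b.orthonormal.ne_zero i
    · have := hsym.apply_eigenvectorBasis rfl i
      exact this
  set t : ℝ := inner ℝ (b i) x with ht
  set e : ℝ := hsym.eigenvalues rfl i with hedef
  have h3 : t * (e * t) = e * t ^ 2 := by ring
  first
    | (rw [h3]; exact mul_nonneg h2 (sq_nonneg _))
    | (have h4 : inner ℝ x (b i) = t := real_inner_comm _ _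
       rw [h4, h3]
       exact mul_nonneg h2 (sq_nonneg _))

end DH
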