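import Pool.Agent.Lib.MP_d70044_ag.DH.Ip
import Pool.Agent.Lib.MP_d70044_ag.DH.Spec

/-!
# DH.Sing: the lower bound for the single sums

For `F` in variables `a_i` (`i < n`), `w_iu` (`u ∈ K`) and others,
`∑ ⟨∂a_i' ∂w_iu F, ∂a_i ∂w_i'u F⟩ ≥ - n ∑ ‖∂a_i F‖²`, whatever the size of `K`.
-/

namespace DH

open MvPolynomial Finset

section gen

variable {σ : Type*} {n : ℕ} {K : Type*} [Fintype K]

/-- the operator of the single sums, shifted -/
noncomputable def TA (va : Fin n → σ) (vw : Fin n → K → σ) :
    MvPolynomial σ ℝ →ₗ[ℝ] MvPolynomial σ ℝ where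
  toFun F := (∑ i, ∑ i', ∑ k, X (vw i' k) * pderiv (vw i k) (X (va i) * pderiv (va i') F)) +
    (n : ℝ) • ∑ i, X (va i) * pderiv (va i) F
  map_add' F G := by
    simp only [map_add, mul_add, Finset.sum_add_distrib, smul_add]
    abel
  map_smul' r F := by
    simp only [Derivation.map_smul, mul_smul_comm, ← Finset.smul_sum, RingHom.id_apply, smul_add]
    rw [smul_comm]

theorem TA_apply (va : Fin n → σ) (vw : Fin n → K → σ) (F : MvPolynomial σ ℝ) :
    TA va vw F = (∑ i, ∑ i', ∑ k, X (vw i' k) * pderiv (vw i k) (X (va i) *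
      pderiv (va i') F)) + (n : ℝ) • ∑ i, X (va i) * pderiv (va i) F := rfl

theorem TA_quad (va : Fin n → σ) (vw : Fin n → K → σ) (hne : ∀ i i' k, va i ≠ vw i' k)
    (F G : MvPolynomial σ ℝ) :
    ip G (TA va vw F) = (∑ i, ∑ i', ∑ k, ip (pderiv (va i) (pderiv (vw i' k) G))
      (pderiv (va i') (pderiv (vw i k) F))) +
      n * ∑ i, ip (pderiv (va i) G) (pderiv (va i) F) := by
  rw [TA_apply, ip_add_right, ip_smul_right]
  simp only [ip_sum_right, ip_mul_X]
  congr 1
  refine Finset.sum_congr rfl fun i _ => Finset.sum_congr rfl fun i' _ =>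
    Finset.sum_congr rfl fun k _ => ?_
  rw [pd_X_mul_ne (hne i i k), ip_mul_X, pd_comm (vw i k) (va i') F]

theorem TA_symm (va : Fin n → σ) (vw : Fin n → K → σ) (hne : ∀ i i' k, va i ≠ vw i' k)
    (F G : MvPolynomial σ ℝ) : ip (TA va vw F) G = ip F (TA va vw G) := by
  rw [ip_comm, TA_quad va vw hne, TA_quad va vw hne]
  congr 1
  · rw [Finset.sum_comm]
    refine Finset.sum_congr rfl fun i _ => Finset.sum_congr rfl fun i' _ =>
      Finset.sum_congr rfl fun k _ => ?_
    rw [ip_comm]
  · congr 1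
    exact Finset.sum_congr rfl fun i _ => ip_comm _ _

theorem mem_deg (N : ℕ) (u v : σ) (F : MvPolynomial σ ℝ) (h : F ∈ restrictTotalDegree σ ℝ N) :
    X u * pderiv v F ∈ restrictTotalDegree σ ℝ N := by
  classical
  rw [mem_restrictTotalDegree] at h ⊢
  rw [totalDegree, Finset.sup_le_iff]
  intro m hm
  rw [support_X_mul, Finset.mem_map] at hm
  obtain ⟨m', hm', rfl⟩ := hm
  rw [mem_support_iff, coeff_pderiv] at hm'
  have h2 : m' + Finsupp.single v 1 ∈ F.support := by
    rw [mem_support_iff]
    intro h0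
    exact hm' (by rw [h0, zero_mul])
  have h3 := (le_totalDegree h2).trans h
  rw [addLeftEmbedding_apply]
  have e1 : ∀ (p q : σ →₀ ℕ), ((p + q).sum fun _ e => e) = (p.sum fun _ e => e) +
      (q.sum fun _ e => e) := fun p q => Finsupp.sum_add_index' (fun _ => rfl) (fun _ _ _ => rfl)
  have e2 : ∀ t : σ, ((Finsupp.single t 1).sum fun _ e => e) = 1 := fun t =>
    Finsupp.sum_single_index rfl
  rw [e1, e2] at h3 ⊢
  omega

theorem TA_mem (va : Fin n → σ) (vw : Fin n → K → σ) (hne : ∀ i i' k, va i ≠ vw i' k) (N : ℕ)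
    (F : MvPolynomial σ ℝ) (h : F ∈ restrictTotalDegree σ ℝ N) :
    TA va vw F ∈ restrictTotalDegree σ ℝ N := by
  rw [TA_apply]
  refine Submodule.add_mem _ ?_ (Submodule.smul_mem _ _ ?_)
  · refine Submodule.sum_mem _ fun i _ => Submodule.sum_mem _ fun i' _ =>
      Submodule.sum_mem _ fun k _ => ?_
    exact mem_deg N _ _ _ (mem_deg N _ _ _ h)
  · exact Submodule.sum_mem _ fun i _ => mem_deg N _ _ _ h

/-- the case of `n` columns -/
theorem TA_pos_small (va : Fin n → σ) (vw : Fin n → Fin n → σ) (hne : ∀ i i' k, va i ≠ vw i' k)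
    (hvw : ∀ k, Function.Injective fun i => vw i k) (F : MvPolynomial σ ℝ) :
    0 ≤ ip F (TA va vw F) := by
  rw [TA_quad va vw hne]
  have h1 : ∀ k, - ∑ i, ip (pderiv (va i) F) (pderiv (va i) F) ≤
      ∑ i, ∑ i', ip (pderiv (vw i' k) (pderiv (va i) F)) (pderiv (vw i k) (pderiv (va i') F)) :=
    fun k => ip_pair (fun i => vw i k) (hvw k) (fun i => pderiv (va i) F)
  have h2 := Finset.sum_le_sum fun k (_ : k ∈ (Finset.univ : Finset (Fin n))) => h1 k
  rw [Finset.sum_const, Finset.card_univ, Fintype.card_fin, nsmul_eq_mul] at h2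
  have h3 : ∑ k, ∑ i, ∑ i', ip (pderiv (vw i' k) (pderiv (va i) F))
      (pderiv (vw i k) (pderiv (va i') F)) =
      ∑ i, ∑ i', ∑ k, ip (pderiv (va i) (pderiv (vw i' k) F))
      (pderiv (va i') (pderiv (vw i k) F)) := by
    calc _ = ∑ i, ∑ k, ∑ i', ip (pderiv (vw i' k) (pderiv (va i) F))
          (pderiv (vw i k) (pderiv (va i') F)) := Finset.sum_comm
      _ = ∑ i, ∑ i', ∑ k, ip (pderiv (vw i' k) (pderiv (va i) F))
          (pderiv (vw i k) (pderiv (va i') F)) :=
          Finset.sum_congr rfl fun i _ => Finset.sum_comm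
      _ = _ := by
          refine Finset.sum_congr rfl fun i _ => Finset.sum_congr rfl fun i' _ =>
            Finset.sum_congr rfl fun k _ => ?_
          rw [pd_comm (vw i' k) (va i) F, pd_comm (vw i k) (va i') F]
  rw [h3] at h2
  linarith

end gen

section subst

variable {σ : Type*} {n : ℕ} {K : Type*} [Fintype K]

/-- derivations are intertwined as soon as they are on the variables -/
theorem intertwine {σ τ : Type*} (φ : MvPolynomial σ ℝ →ₐ[ℝ] MvPolynomial τ ℝ)
    (D : Derivation ℝ (MvPolynomial σ ℝ) (MvPolynomial σ ℝ))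
    (D' : Derivation ℝ (MvPolynomial τ ℝ) (MvPolynomial τ ℝ))
    (h : ∀ v, φ (D (X v)) = D' (φ (X v))) (F : MvPolynomial σ ℝ) : φ (D F) = D' (φ F) := by
  induction F using MvPolynomial.induction_on with
  | C r =>
    rw [MvPolynomial.derivation_C, map_zero]
    have h2 : φ (C r) = C r := φ.commutes r
    rw [h2, MvPolynomial.derivation_C]
  | add p q hp hq => rw [map_add, map_add, map_add, map_add, hp, hq]
  | mul_X p v hp =>
    rw [Derivation.leibniz, map_add, smul_eq_mul, smul_eq_mul, map_mul, map_mul, map_mul,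
      Derivation.leibniz, hp, h, smul_eq_mul, smul_eq_mul]

theorem sum_der_apply {σ ι : Type*} (s : Finset ι) (g : ι → MvPolynomial σ ℝ) (u : ι → σ)
    (F : MvPolynomial σ ℝ) :
    (∑ i ∈ s, g i • pderiv (R := ℝ) (u i)) F = ∑ i ∈ s, g i * pderiv (u i) F := by
  classical
  induction s using Finset.induction_on with
  | empty => simp
  | insert a s ha ih =>
    rw [Finset.sum_insert ha, Finset.sum_insert ha, Derivation.add_apply, ih]
    rfl

/-- the substitution `w_iu = ∑_s v_is g_su` -/
noncomputable def sub (vw : Fin n → K → σ) (g : Fin n → K → ℝ) :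
    MvPolynomial σ ℝ →ₐ[ℝ] MvPolynomial (σ ⊕ (Fin n × Fin n)) ℝ :=
  aeval (Function.extend (fun p : Fin n × K => vw p.1 p.2)
    (fun p => ∑ s, C (g s p.2) * X (Sum.inr (p.1, s))) (fun t => X (Sum.inl t)))

theorem sub_w (vw : Fin n → K → σ) (hvw : ∀ i k i' k', vw i k = vw i' k' → i = i' ∧ k = k')
    (g : Fin n → K → ℝ) (i : Fin n) (k : K) :
    sub vw g (X (vw i k)) = ∑ s, C (g s k) * X (Sum.inr (i, s)) := by
  have hinj : Function.Injective (fun p : Fin n × K => vw p.1 p.2) := fun p q h =>
    Prod.ext_iff.2 (hvw _ _ _ _ h)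
  unfold sub
  rw [aeval_X]
  exact hinj.extend_apply _ _ (i, k)

theorem sub_ne (vw : Fin n → K → σ) (g : Fin n → K → ℝ) (t : σ) (ht : ∀ i k, vw i k ≠ t) :
    sub vw g (X t) = X (Sum.inl t) := by
  unfold sub
  rw [aeval_X]
  exact Function.extend_apply' _ _ _ fun ⟨p, hp⟩ => ht _ _ hp

theorem eval_sub (vw : Fin n → K → σ)
    (hvw : ∀ i k i' k', vw i k = vw i' k' → i = i' ∧ k = k') (θ : σ → ℝ) (F : MvPolynomial σ ℝ) :
    eval (Sum.elim θ fun p => if p.1 = p.2 then 1 else 0)
      (sub vw (fun s k => θ (vw s k)) F) = eval θ F := by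
  classical
  induction F using MvPolynomial.induction_on with
  | C r =>
    have h2 : sub vw (fun s k => θ (vw s k)) (C r) = C r := (sub vw _).commutes r
    rw [h2, eval_C, eval_C]
  | add p q hp hq => rw [map_add, map_add, map_add, hp, hq]
  | mul_X p v hp =>
    rw [map_mul, map_mul, map_mul, hp]
    congr 1
    by_cases h : ∃ i k, vw i k = v
    · obtain ⟨i, k, rfl⟩ := h
      rw [sub_w vw hvw, map_sum, Finset.sum_eq_single i]
      · simp
      · intro s _ hs
        rw [map_mul, eval_X]
        simp [Ne.symm hs]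
      · intro h
        exact absurd (Finset.mem_univ _) h
    · push Not at h
      rw [sub_ne vw _ v h, eval_X, eval_X, Sum.elim_inl]

/-- the substitution intertwines the operators -/
theorem sub_TA (va : Fin n → σ) (vw : Fin n → K → σ) (hne : ∀ i i' k, va i ≠ vw i' k)
    (hvw : ∀ i k i' k', vw i k = vw i' k' → i = i' ∧ k = k') (g : Fin n → K → ℝ)
    (F : MvPolynomial σ ℝ) :
    sub vw g (TA va vw F) = TA (fun i => Sum.inl (va i)) (fun i s => Sum.inr (i, s))
      (sub vw g F) := by
  classical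
  -- first order operators on the `w`
  have hw : ∀ (i i' : Fin n) (G : MvPolynomial σ ℝ),
      sub vw g (∑ k, X (vw i' k) * pderiv (vw i k) G) =
        ∑ s, X (Sum.inr (i', s)) * pderiv (Sum.inr (i, s)) (sub vw g G) := by
    intro i i' G
    have h1 := intertwine (sub vw g)
      (∑ k, (X (vw i' k) : MvPolynomial σ ℝ) • pderiv (vw i k))
      (∑ s, (X (Sum.inr (i', s)) : MvPolynomial (σ ⊕ (Fin n × Fin n)) ℝ) •
        pderiv (Sum.inr (i, s))) ?_ G
    · rw [sum_der_apply, sum_der_apply] at h1
      exact h1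
    · intro v
      rw [sum_der_apply, sum_der_apply]
      by_cases h : ∃ p k, vw p k = v
      · obtain ⟨p, k, rfl⟩ := h
        rw [sub_w vw hvw]
        by_cases hp : p = i
        · subst hp
          rw [Finset.sum_eq_single k]
          · rw [pderiv_X_self, mul_one, sub_w vw hvw]
            refine Finset.sum_congr rfl fun s _ => ?_
            rw [map_sum, Finset.sum_eq_single s]
            · rw [pderiv_C_mul, pderiv_X_self, mul_one, mul_comm]
            · intro t _ ht
              rw [pderiv_C_mul, pderiv_X_of_ne, mul_zero]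
              intro h; exact ht (by injection h with h; exact (Prod.ext_iff.1 h).2)
            · intro h; exact absurd (Finset.mem_univ _) h
          · intro k' _ hk'
            rw [pderiv_X_of_ne, mul_zero]
            intro h; exact hk' (hvw _ _ _ _ h).2.symm
          · intro h; exact absurd (Finset.mem_univ _) h
        · rw [Finset.sum_eq_zero, map_zero]
          · symm
            refine Finset.sum_eq_zero fun s _ => ?_
            rw [map_sum, Finset.sum_eq_zero, mul_zero]
            intro t _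
            rw [pderiv_C_mul, pderiv_X_of_ne, mul_zero]
            intro h; exact hp (by injection h with h; exact (Prod.ext_iff.1 h).1)
          · intro k' _
            rw [pderiv_X_of_ne, mul_zero]
            intro h; exact hp (hvw _ _ _ _ h).1
      · push Not at h
        rw [sub_ne vw g v h, Finset.sum_eq_zero, map_zero]
        · symm
          refine Finset.sum_eq_zero fun s _ => ?_
          rw [pderiv_X_of_ne (by simp), mul_zero]
        · intro k' _
          rw [pderiv_X_of_ne (fun h' => h _ _ h'.symm), mul_zero]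
  have ha : ∀ (i i' : Fin n) (G : MvPolynomial σ ℝ),
      sub vw g (X (va i) * pderiv (va i') G) =
        X (Sum.inl (va i)) * pderiv (Sum.inl (va i')) (sub vw g G) := by
    intro i i' G
    have h1 := intertwine (sub vw g)
      (∑ _k : Unit, (X (va i) : MvPolynomial σ ℝ) • pderiv (va i'))
      (∑ _k : Unit, (X (Sum.inl (va i)) : MvPolynomial (σ ⊕ (Fin n × Fin n)) ℝ) •
        pderiv (Sum.inl (va i'))) ?_ G
    · rw [sum_der_apply, sum_der_apply] at h1
      simpa using h1
    · intro v
      rw [sum_der_apply, sum_der_apply]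
      simp only [Finset.univ_unique, Finset.sum_singleton, map_mul]
      have hva : sub vw g (X (va i)) = X (Sum.inl (va i)) :=
        sub_ne vw g _ fun i' k h => hne _ _ _ h.symm
      rw [hva]
      by_cases h : ∃ p k, vw p k = v
      · obtain ⟨p, k, rfl⟩ := h
        rw [pderiv_X_of_ne (fun h' => hne _ _ _ h'.symm), map_zero, sub_w vw hvw, map_sum,
          Finset.sum_eq_zero]
        intro s _
        rw [pderiv_C_mul, pderiv_X_of_ne (by simp), mul_zero]
      · push Not at h
        rw [sub_ne vw g v h]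
        by_cases hv : v = va i'
        · rw [hv, pderiv_X_self, pderiv_X_self, map_one]
        · rw [pderiv_X_of_ne hv, pderiv_X_of_ne (fun h' => hv (Sum.inl_injective h')), map_zero]
  rw [TA_apply, TA_apply, map_add, map_smul, map_sum, map_sum]
  congr 1
  · refine Finset.sum_congr rfl fun i _ => ?_
    rw [map_sum]
    refine Finset.sum_congr rfl fun i' _ => ?_
    rw [hw, ha]
  · congr 1
    exact Finset.sum_congr rfl fun i _ => ha i i F

theorem TA_pos [Finite σ] (va : Fin n → σ) (vw : Fin n → K → σ)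
    (hne : ∀ i i' k, va i ≠ vw i' k)
    (hvw : ∀ i k i' k', vw i k = vw i' k' → i = i' ∧ k = k') (F : MvPolynomial σ ℝ) :
    0 ≤ ip F (TA va vw F) := by
  classical
  set W := restrictTotalDegree σ ℝ F.totalDegree with hW
  have hF : F ∈ W := by rw [hW, mem_restrictTotalDegree]
  let T : W →ₗ[ℝ] W := (TA va vw).restrict fun G hG => TA_mem va vw hne _ G hG
  have h1 := nonneg_of_eigen (W := W) (fun x y => ip (x : MvPolynomial σ ℝ) y)
    (fun x y z => ip_add_left _ _ _) (fun r x y => ip_smul_left _ _ _) (fun x y => ip_comm _ _)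
    (fun x hx => ip_self_pos fun h => hx (Subtype.ext h)) T
    (fun x y => TA_symm va vw hne _ _) ?_ ⟨F, hF⟩
  · exact h1
  · intro μ x hx hTx
    have hx0 : (x : MvPolynomial σ ℝ) ≠ 0 := fun h => hx (Subtype.ext h)
    have hTx' : TA va vw (x : MvPolynomial σ ℝ) = μ • (x : MvPolynomial σ ℝ) :=
      congrArg Subtype.val hTx
    obtain ⟨θ, hθ⟩ : ∃ θ : σ → ℝ, eval θ (x : MvPolynomial σ ℝ) ≠ 0 := by
      by_contra hcon
      push Not at hcon
      exact hx0 (MvPolynomial.funext fun θ => by rw [hcon θ, map_zero])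
    have h2 := sub_TA va vw hne hvw (fun s k => θ (vw s k)) (x : MvPolynomial σ ℝ)
    rw [hTx', map_smul] at h2
    have h3 : sub vw (fun s k => θ (vw s k)) (x : MvPolynomial σ ℝ) ≠ 0 := by
      intro h
      apply hθ
      rw [← eval_sub vw hvw, h, map_zero]
    have h4 := TA_pos_small (σ := σ ⊕ (Fin n × Fin n)) (fun i => Sum.inl (va i))
      (fun i s => Sum.inr (i, s)) (by simp) (fun k i i' h => by simpa using h)
      (sub vw (fun s k => θ (vw s k)) (x : MvPolynomial σ ℝ))
    rw [← h2, ip_smul_right] at h4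
    have h5 := ip_self_pos h3
    by_contra h6
    push Not at h6
    have := mul_neg_of_neg_of_pos h6 h5
    linarith

/-- the lower bound for the single sums -/
theorem singles [Finite σ] (va : Fin n → σ) (vw : Fin n → K → σ)
    (hne : ∀ i i' k, va i ≠ vw i' k)
    (hvw : ∀ i k i' k', vw i k = vw i' k' → i = i' ∧ k = k') (F : MvPolynomial σ ℝ) :
    - (n * ∑ i, ip (pderiv (va i) F) (pderiv (va i) F)) ≤
      ∑ i, ∑ i', ∑ k, ip (pderiv (va i') (pderiv (vw i k) F))
        (pderiv (va i) (pderiv (vw i' k) F)) := by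
  have h1 := TA_pos va vw hne hvw F
  rw [TA_quad va vw hne] at h1
  have h2 : (∑ i, ∑ i', ∑ k, ip (pderiv (va i) (pderiv (vw i' k) F))
      (pderiv (va i') (pderiv (vw i k) F))) =
      ∑ i, ∑ i', ∑ k, ip (pderiv (va i') (pderiv (vw i k) F))
        (pderiv (va i) (pderiv (vw i' k) F)) := by
    refine Finset.sum_congr rfl fun i _ => Finset.sum_congr rfl fun i' _ =>
      Finset.sum_congr rfl fun k _ => ip_comm _ _
  rw [h2] at h1
  linarith

end subst

end DH
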