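import Pool.Agent.Lib.MP_d70044_ag.DH.Key

/-!
# DH.Step: the recursion for the degrees of the equations
-/

namespace DH

open MvPolynomial Finset

theorem comm_ext {σ : Type*} (D1 D2 D3 : Derivation ℝ (MvPolynomial σ ℝ) (MvPolynomial σ ℝ))
    (h : ∀ v, D1 (D2 (X v)) - D2 (D1 (X v)) = D3 (X v)) (F : MvPolynomial σ ℝ) :
    D1 (D2 F) - D2 (D1 F) = D3 F := by
  have h1 : ⁅D1, D2⁆ = D3 := by
    apply MvPolynomial.derivation_ext
    intro v
    rw [Derivation.commutator_apply]
    exact h v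
  rw [← h1, Derivation.commutator_apply]

variable {m1 m2 m3 : ℕ}

noncomputable def ThD (l : Fin m3) : Derivation ℝ (P m1 m2 m3) (P m1 m2 m3) :=
  ∑ p : Fin m1 × Fin m2, (X (a p.1) * X (b p.2) : P m1 m2 m3) • pderiv (w p.1 p.2 l)

theorem ThD_apply (l : Fin m3) (F : P m1 m2 m3) : ThD l F = Th l F := by
  unfold ThD Th
  rw [sum_der_apply]
  simp only [Fintype.sum_prod_type, Finset.mul_sum, mul_assoc]

noncomputable def eulD {σ ι : Type*} [Fintype ι] (v : ι → σ) :
    Derivation ℝ (MvPolynomial σ ℝ) (MvPolynomial σ ℝ) :=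
  ∑ i, (X (v i) : MvPolynomial σ ℝ) • pderiv (v i)

theorem eulD_apply {σ ι : Type*} [Fintype ι] (v : ι → σ) (F : MvPolynomial σ ℝ) :
    eulD v F = eul v F := by
  unfold eulD eul
  rw [sum_der_apply]

theorem eulD_X {σ ι : Type*} [Fintype ι] (v : ι → σ) (hv : Function.Injective v) (i : ι) :
    eulD v (X (v i)) = X (v i) := by
  classical
  rw [eulD_apply, eul, Finset.sum_eq_single i]
  · rw [pderiv_X_self, mul_one]
  · intro j _ hj
    rw [pderiv_X_of_ne (fun h => hj (hv h.symm)), mul_zero]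
  · intro h
    exact absurd (Finset.mem_univ i) h

theorem eulD_X_ne {σ ι : Type*} [Fintype ι] (v : ι → σ) (u : σ) (h : ∀ i, u ≠ v i) :
    eulD v (X u : MvPolynomial σ ℝ) = 0 := by
  rw [eulD_apply, eul]
  refine Finset.sum_eq_zero fun i _ => ?_
  rw [pderiv_X_of_ne (h i), mul_zero]

theorem ThD_X_w (i : Fin m1) (j : Fin m2) (l l' : Fin m3) :
    ThD l (X (w i j l') : P m1 m2 m3) = if l' = l then X (a i) * X (b j) else 0 := by
  classical
  unfold ThD
  rw [sum_der_apply]
  by_cases hl : l' = l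
  · rw [if_pos hl, Finset.sum_eq_single (i, j)]
    · rw [hl, pderiv_X_self, mul_one]
    · rintro ⟨i', j'⟩ _ h
      rw [pderiv_X_of_ne, mul_zero]
      intro h'
      apply h
      simp at h'
      rw [h'.1, h'.2.1]
    · intro h
      exact absurd (Finset.mem_univ _) h
  · rw [if_neg hl]
    refine Finset.sum_eq_zero fun p _ => ?_
    rw [pderiv_X_of_ne, mul_zero]
    intro h'
    simp at h'
    exact hl h'.2.2

theorem ThD_X_ne (l : Fin m3) (u : V2 m1 m2 m3) (h : ∀ i j l, u ≠ w i j l) :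
    ThD l (X u : P m1 m2 m3) = 0 := by
  unfold ThD
  rw [sum_der_apply]
  refine Finset.sum_eq_zero fun p _ => ?_
  rw [pderiv_X_of_ne (h _ _ _), mul_zero]

theorem ea_comm (l : Fin m3) (F : P m1 m2 m3) :
    eulD a (ThD l F) - ThD l (eulD a F) = ThD l F := by
  refine comm_ext (eulD a) (ThD l) (ThD l) ?_ F
  rintro (p | p | ⟨p, q, r⟩)
  · rw [ThD_X_ne l _ (by simp), eulD_X a a_inj p, ThD_X_ne l _ (by simp)]; simp
  · rw [ThD_X_ne l _ (by simp), eulD_X_ne _ _ (by simp)]; simp
  · rw [ThD_X_w, eulD_X_ne a (w p q r) (by simp)]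
    split_ifs
    · rw [Derivation.leibniz, eulD_X a a_inj p, eulD_X_ne a (b q) (by simp)]
      simp [mul_comm]
    · simp

theorem eb_comm (l : Fin m3) (F : P m1 m2 m3) :
    eulD b (ThD l F) - ThD l (eulD b F) = ThD l F := by
  refine comm_ext (eulD b) (ThD l) (ThD l) ?_ F
  rintro (p | p | ⟨p, q, r⟩)
  · rw [ThD_X_ne l _ (by simp), eulD_X_ne _ _ (by simp)]; simp
  · rw [ThD_X_ne l _ (by simp), eulD_X b b_inj p, ThD_X_ne l _ (by simp)]; simp
  · rw [ThD_X_w, eulD_X_ne b (w p q r) (by simp)]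
    split_ifs
    · rw [Derivation.leibniz, eulD_X b b_inj q, eulD_X_ne b (a p) (by simp)]
      simp [mul_comm]
    · simp

theorem ew_comm (l : Fin m3) (F : P m1 m2 m3) :
    eulD ww (ThD l F) - ThD l (eulD ww F) = (-ThD l) F := by
  refine comm_ext (eulD ww) (ThD l) (-ThD l) ?_ F
  rintro (p | p | ⟨p, q, r⟩)
  · rw [ThD_X_ne l _ (by simp), eulD_X_ne _ _ (by simp), Derivation.neg_apply,
      ThD_X_ne l _ (by simp)]; simp
  · rw [ThD_X_ne l _ (by simp), eulD_X_ne _ _ (by simp), Derivation.neg_apply,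
      ThD_X_ne l _ (by simp)]; simp
  · have h1 : eulD ww (X (w p q r) : P m1 m2 m3) = X (w p q r) := eulD_X ww ww_inj (p, q, r)
    rw [Derivation.neg_apply, h1, ThD_X_w]
    split_ifs
    · rw [Derivation.leibniz, eulD_X_ne ww (a p) (by simp), eulD_X_ne ww (b q) (by simp)]
      simp
    · simp

theorem good_Th {m r : ℝ} {F : P m1 m2 m3} (h : Good m r F) (l : Fin m3) :
    Good (m + 1) (r - 1) (Th l F) := by
  have hE : ∀ {ι : Type} [Fintype ι] (v : ι → V2 m1 m2 m3) (s : ℝ)
      (D : Derivation ℝ (P m1 m2 m3) (P m1 m2 m3)) (t : ℝ)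
      (_ : ∀ F, eulD v (ThD l F) - ThD l (eulD v F) = D F) (_ : D F = t • ThD l F)
      (_ : eul v F = s • F), eul v (Th l F) = (s + t) • Th l F := by
    intro ι _ v s D t h1 h2 h3
    have h4 := h1 F
    rw [h2, eulD_apply, eulD_apply, h3, ThD_apply, Derivation.map_smul, ThD_apply] at h4
    rw [add_smul, ← h4]
    abel
  constructor
  · exact hE a m (ThD l) 1 (ea_comm l) (one_smul _ _).symm h.ea
  · exact hE b m (ThD l) 1 (eb_comm l) (one_smul _ _).symm h.eb
  · have := hE ww r (-ThD l) (-1) (ew_comm l) (by rw [neg_one_smul]; rfl) h.ew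
    exact this

/-- polynomials on tensors -/
abbrev Q (m1 m2 m3 : ℕ) := MvPolynomial (Fin m1 × Fin m2 × Fin m3) ℝ

theorem good_start {d : ℝ} {f : Q m1 m2 m3} (h : eul id f = d • f) :
    Good 0 d (rename ww f : P m1 m2 m3) := by
  classical
  have hz : ∀ {ι : Type} [Fintype ι] (v : ι → V2 m1 m2 m3) (_ : ∀ i p, ww p ≠ v i),
      eul v (rename ww f) = (0 : ℝ) • rename ww f := by
    intro ι _ v hv
    rw [zero_smul, eul]
    refine Finset.sum_eq_zero fun i _ => ?_
    rw [pderiv_eq_zero_of_notMem_vars, mul_zero]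
    intro h
    have h1 := vars_rename ww f h
    rw [Finset.mem_image] at h1
    obtain ⟨p, -, hp⟩ := h1
    exact hv i p hp
  constructor
  · exact hz a (by simp)
  · exact hz b (by simp)
  · have h1 := congrArg (rename (ww : _ → V2 m1 m2 m3)) h
    rw [eul, map_sum, map_smul] at h1
    rw [← h1]
    refine Finset.sum_congr rfl fun p _ => ?_
    rw [map_mul, rename_X, id_eq, pderiv_rename ww_inj]

/-- derivative along a direction -/
noncomputable def dx (x : Fin m1 × Fin m2 × Fin m3 → ℝ) (f : Q m1 m2 m3) : Q m1 m2 m3 :=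
  ∑ p, C (x p) * pderiv p f

noncomputable def dxD (x : Fin m1 × Fin m2 × Fin m3 → ℝ) :
    Derivation ℝ (Q m1 m2 m3) (Q m1 m2 m3) :=
  ∑ p, (C (x p) : Q m1 m2 m3) • pderiv p

theorem dxD_apply (x : Fin m1 × Fin m2 × Fin m3 → ℝ) (f : Q m1 m2 m3) : dxD x f = dx x f := by
  unfold dxD dx
  rw [sum_der_apply]

theorem dxD_X (x : Fin m1 × Fin m2 × Fin m3 → ℝ) (q : Fin m1 × Fin m2 × Fin m3) :
    dxD x (X q) = C (x q) := by
  rw [dxD_apply, dx, Finset.sum_eq_single q]
  · rw [pderiv_X_self, mul_one]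
  · intro p _ hp
    rw [pderiv_X_of_ne (fun h => hp h.symm), mul_zero]
  · intro h
    exact absurd (Finset.mem_univ _) h

/-- the derivative along a direction lowers the degree -/
theorem eul_dx {x : Fin m1 × Fin m2 × Fin m3 → ℝ} {d : ℝ} {f : Q m1 m2 m3}
    (h : eul id f = d • f) : eul id (dx x f) = (d - 1) • dx x f := by
  have h1 := comm_ext (eulD id) (dxD x) (-dxD x) ?_ f
  · rw [eulD_apply, eulD_apply, h, Derivation.map_smul, Derivation.neg_apply, dxD_apply] at h1
    rw [sub_smul, one_smul, sub_eq_add_neg, ← h1]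
    abel
  · intro t
    have hX : eulD id (X t : Q m1 m2 m3) = X t := eulD_X id Function.injective_id t
    rw [hX, Derivation.neg_apply, dxD_X, MvPolynomial.derivation_C]
    simp

/-- rank one tensor -/
def r1 (α : Fin m1 → ℝ) (β : Fin m2 → ℝ) (γ : Fin m3 → ℝ) : Fin m1 × Fin m2 × Fin m3 → ℝ :=
  fun p => α p.1 * β p.2.1 * γ p.2.2

/-- substitution of the vectors -/
noncomputable def ev (α : Fin m1 → ℝ) (β : Fin m2 → ℝ) : P m1 m2 m3 →ₐ[ℝ] Q m1 m2 m3 :=
  aeval (Sum.elim (fun i => C (α i)) (Sum.elim (fun j => C (β j)) fun p => X p))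

theorem ev_ThD (α : Fin m1 → ℝ) (β : Fin m2 → ℝ) (l : Fin m3) (F : P m1 m2 m3) :
    ev α β (ThD l F) = dxD (r1 α β (Pi.single l 1)) (ev α β F) := by
  classical
  refine intertwine (ev α β) (ThD l) (dxD (r1 α β (Pi.single l 1))) ?_ F
  unfold ev
  rintro (p | p | ⟨p, q, r⟩)
  · rw [ThD_X_ne l _ (by simp), map_zero, aeval_X]
    exact (MvPolynomial.derivation_C _ _).symm
  · rw [ThD_X_ne l _ (by simp), map_zero, aeval_X]
    exact (MvPolynomial.derivation_C _ _).symm
  · rw [ThD_X_w, aeval_X]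
    simp only [Sum.elim_inr]
    rw [dxD_X, r1]
    by_cases h : r = l
    · rw [if_pos h, map_mul, aeval_X, aeval_X, h]
      simp
    · rw [if_neg h, map_zero]
      simp [Pi.single_eq_of_ne h]

theorem ev_start (α : Fin m1 → ℝ) (β : Fin m2 → ℝ) (f : Q m1 m2 m3) :
    ev α β (rename ww f) = f := by
  unfold ev
  rw [aeval_rename]
  exact aeval_X_left_apply f

/-- the sum of `k` rank one tensors -/
def tens {k : ℕ} (α : Fin k → Fin m1 → ℝ) (β : Fin k → Fin m2 → ℝ) (γ : Fin k → Fin m3 → ℝ) :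
    Fin m1 × Fin m2 × Fin m3 → ℝ :=
  fun p => ∑ r, α r p.1 * β r p.2.1 * γ r p.2.2

/-- `f` vanishes on all real tensors of rank at most `k` -/
def Van (k : ℕ) (f : Q m1 m2 m3) : Prop :=
  ∀ (α : Fin k → Fin m1 → ℝ) (β : Fin k → Fin m2 → ℝ) (γ : Fin k → Fin m3 → ℝ),
    eval (tens α β γ) f = 0

/-- restriction to the line `y + t z` -/
noncomputable def line (y z : Fin m1 × Fin m2 × Fin m3 → ℝ) : Q m1 m2 m3 →ₐ[ℝ] Polynomial ℝ :=
  aeval fun p => Polynomial.C (y p) + Polynomial.X * Polynomial.C (z p)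

theorem eval_line (y z : Fin m1 × Fin m2 × Fin m3 → ℝ) (f : Q m1 m2 m3) (t : ℝ) :
    (line y z f).eval t = eval (fun p => y p + t * z p) f := by
  unfold line
  induction f using MvPolynomial.induction_on with
  | C r =>
    rw [aeval_C, eval_C]
    change Polynomial.eval t (Polynomial.C r) = r
    rw [Polynomial.eval_C]
  | add p q hp hq => rw [map_add, Polynomial.eval_add, map_add, hp, hq]
  | mul_X p v hp =>
    rw [map_mul, Polynomial.eval_mul, map_mul, hp, aeval_X, eval_X, Polynomial.eval_add,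
      Polynomial.eval_mul, Polynomial.eval_C, Polynomial.eval_C, Polynomial.eval_X]

theorem derivative_line (y z : Fin m1 × Fin m2 × Fin m3 → ℝ) (f : Q m1 m2 m3) :
    Polynomial.derivative (line y z f) = line y z (dx z f) := by
  rw [← dxD_apply]
  induction f using MvPolynomial.induction_on with
  | C r =>
    have h1 : line y z (C r) = Polynomial.C r := by
      unfold line
      rw [aeval_C]
      rfl
    rw [h1, Polynomial.derivative_C, MvPolynomial.derivation_C, map_zero]
  | add p q hp hq => rw [map_add, Polynomial.derivative_add, map_add, map_add, hp, hq]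
  | mul_X p v hp =>
    have hX : line y z (X v) = Polynomial.C (y v) + Polynomial.X * Polynomial.C (z v) := by
      unfold line
      rw [aeval_X]
    have hC : line y z (C (z v)) = Polynomial.C (z v) := by
      unfold line
      rw [aeval_C]
      rfl
    rw [map_mul, Polynomial.derivative_mul, hp, Derivation.leibniz, smul_eq_mul, smul_eq_mul,
      map_add, map_mul, map_mul, dxD_X, hX, hC]
    simp
    ring

theorem van_dir {f : Q m1 m2 m3} {y z : Fin m1 × Fin m2 × Fin m3 → ℝ}
    (h : ∀ t : ℝ, eval (fun p => y p + t * z p) f = 0) : eval y (dx z f) = 0 := by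
  have h0 : line y z f = 0 := by
    apply Polynomial.funext
    intro t
    rw [eval_line, h, Polynomial.eval_zero]
  have h1 := eval_line y z (dx z f) 0
  rw [← derivative_line, h0, Polynomial.derivative_zero, Polynomial.eval_zero] at h1
  rw [h1]
  congr 1
  congr 1
  funext p
  ring

/-- there is a nonzero form of degree `d` vanishing on all tensors of rank at most `k` -/
def Ex (m1 m2 m3 k : ℕ) (d : ℝ) : Prop := ∃ f : Q m1 m2 m3, f ≠ 0 ∧ eul id f = d • f ∧ Van k f

/-- the data carried along -/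
structure Carry (k : ℕ) (d : ℝ) (m : ℕ) (F : P m1 m2 m3) : Prop where
  good : Good m (d - m) F
  deg : ∀ α β, eul id (ev α β F) = (d - m) • ev α β F
  van : ∀ α β (y1 : Fin k → Fin m1 → ℝ) (y2 : Fin k → Fin m2 → ℝ) (y3 : Fin k → Fin m3 → ℝ)
    (γ : Fin m3 → ℝ), eval (fun p => tens y1 y2 y3 p + r1 α β γ p) (ev α β F) = 0

theorem carry_start {k : ℕ} {d : ℝ} {f : Q m1 m2 m3} (he : eul id f = d • f)
    (hv : Van (k + 1) f) : Carry k d 0 (rename ww f : P m1 m2 m3) := by
  refine ⟨?_, ?_, ?_⟩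
  · simpa using good_start he
  · intro α β
    rw [ev_start]
    simpa using he
  · intro α β y1 y2 y3 γ
    rw [ev_start]
    have h1 := hv (Fin.cons α y1) (Fin.cons β y2) (Fin.cons γ y3)
    refine Eq.trans ?_ h1
    congr 1
    congr 1
    funext p
    unfold tens r1
    rw [Fin.sum_univ_succ]
    simp only [Fin.cons_zero, Fin.cons_succ]
    ring

theorem carry_step {k : ℕ} {d : ℝ} {m : ℕ} {F : P m1 m2 m3} (h : Carry k d m F) (l : Fin m3) :
    Carry k d (m + 1) (Th l F) := by
  refine ⟨?_, ?_, ?_⟩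
  · have := good_Th h.good l
    convert this using 1
    · push_cast; ring
    · push_cast; ring
  · intro α β
    rw [← ThD_apply, ev_ThD, dxD_apply, eul_dx (h.deg α β)]
    push_cast
    rw [sub_sub]
  · intro α β y1 y2 y3 γ
    rw [← ThD_apply, ev_ThD, dxD_apply]
    apply van_dir
    intro t
    refine Eq.trans ?_ (h.van α β y1 y2 y3 (fun l' => γ l' + t * (Pi.single l (1 : ℝ) : _ → ℝ) l'))
    congr 1
    congr 1
    funext p
    unfold r1
    ring

/-- the recursion -/
theorem rec_step {k : ℕ} {d : ℝ} (h : Ex m1 m2 m3 (k + 1) d) (D : ℕ)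
    (hD : ∀ m : ℕ, m ≤ D → (m1 + m2) * (m : ℝ) + m3 * (m : ℝ) ^ 2 < d - m) :
    Ex m1 m2 m3 k (d - (D + 1)) := by
  obtain ⟨f, hf, he, hv⟩ := h
  have hall : ∀ m : ℕ, m ≤ D + 1 → ∃ F : P m1 m2 m3, F ≠ 0 ∧ Carry k d m F := by
    intro m
    induction m with
    | zero =>
      intro _
      refine ⟨rename ww f, ?_, carry_start he hv⟩
      intro h'
      exact hf (rename_injective _ ww_inj (by rw [h', map_zero]))
    | succ m ih =>
      intro hm
      obtain ⟨F, hF, hc⟩ := ih (by omega)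
      have h1 := key hc.good
      have h2 := ip_self_pos hF
      have h3 := hD m (by omega)
      have h4 : 0 < (d - m - (m1 + m2) * (m : ℝ) - m3 * (m : ℝ) ^ 2) * ip F F :=
        mul_pos (by linarith) h2
      obtain ⟨l, -, hl⟩ : ∃ l ∈ (Finset.univ : Finset (Fin m3)), 0 < ip (Th l F) (Th l F) := by
        by_contra hcon
        push Not at hcon
        have := Finset.sum_nonpos hcon
        linarith
      refine ⟨Th l F, ?_, carry_step hc l⟩
      intro h0
      rw [h0, ip_zero_left] at hl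
      exact lt_irrefl _ hl
  obtain ⟨F, hF, hc⟩ := hall (D + 1) le_rfl
  obtain ⟨θ, hθ⟩ : ∃ θ : V2 m1 m2 m3 → ℝ, eval θ F ≠ 0 := by
    by_contra hcon
    push Not at hcon
    exact hF (MvPolynomial.funext fun θ => by rw [hcon θ, map_zero])
  refine ⟨ev (fun i => θ (a i)) (fun j => θ (b j)) F, ?_, ?_, ?_⟩
  · intro h2
    apply hθ
    have h3 : eval (fun p => θ (ww p)) (ev (fun i => θ (a i)) (fun j => θ (b j)) F) =
        eval θ F := by
      generalize F = G
      unfold ev
      induction G using MvPolynomial.induction_on with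
      | C r =>
        rw [aeval_C]
        change eval _ (C r) = _
        rw [eval_C, eval_C]
      | add p q hp hq => rw [map_add, map_add, map_add, hp, hq]
      | mul_X p v hp =>
        rw [map_mul, map_mul, map_mul, hp, aeval_X, eval_X]
        rcases v with (v | v | v) <;> simp
    rw [← h3, h2, map_zero]
  · have := hc.deg (fun i => θ (a i)) (fun j => θ (b j))
    rw [this]
    push_cast
    rfl
  · intro y1 y2 y3
    have h1 := hc.van (fun i => θ (a i)) (fun j => θ (b j)) y1 y2 y3 0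
    refine Eq.trans ?_ h1
    congr 1
    congr 1
    funext p
    unfold r1
    simp

end DH
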